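import Pool.Agent.H44.FB.Targets

/-!
# The injective part for structures with local completions: basic lemmas
-/

set_option autoImplicit false

namespace Pool.Agent.H44.FB

open Pool.Agent.H68.BP Pool.Agent.H58.SF Pool.Agent.H53.NR
open Pool.Agent.H57.AR (tp ty Ty)
open Pool.Agent.H57.EQ (Cx)
open Pool.Agent.H44.KR
open Function
open Classical

variable {V W W' : Type} {ρ σ : Sig} {𝔸 : Str σ V} {𝔹 : Str ρ V}

theorem tpo_refl (A : Set W) (x : W → V) : TpOn 𝔹 A x x :=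
  ⟨fun _ _ _ _ => Iff.rfl, fun _ _ _ => Iff.rfl⟩

theorem tpo_symm {A : Set W} {x y : W → V} (h : TpOn 𝔹 A x y) : TpOn 𝔹 A y x :=
  ⟨fun a ha b hb => (h.1 a ha b hb).symm, fun l z hz => (h.2 l z hz).symm⟩

theorem tpo_trans {A : Set W} {x y z : W → V} (h : TpOn 𝔹 A x y) (h' : TpOn 𝔹 A y z) :
    TpOn 𝔹 A x z :=
  ⟨fun a ha b hb => (h.1 a ha b hb).trans (h'.1 a ha b hb),
    fun l w hw => (h.2 l w hw).trans (h'.2 l w hw)⟩

theorem tpo_mono {A A' : Set W} {x y : W → V} (h : TpOn 𝔹 A x y) (hA : A' ⊆ A) :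
    TpOn 𝔹 A' x y :=
  ⟨fun a ha b hb => h.1 a (hA ha) b (hA hb), fun l z hz => h.2 l z fun i => hA (hz i)⟩

theorem tpo_congr {A : Set W} {x y x' y' : W → V} (h : TpOn 𝔹 A x y) (hx : ∀ a ∈ A, x' a = x a)
    (hy : ∀ a ∈ A, y' a = y a) : TpOn 𝔹 A x' y' := by
  refine ⟨fun a ha b hb => ?_, fun l z hz => ?_⟩
  · rw [hx a ha, hx b hb, hy a ha, hy b hb]
    exact h.1 a ha b hb
  · have h1 : (fun i => x' (z i)) = fun i => x (z i) := funext fun i => hx _ (hz i)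
    have h2 : (fun i => y' (z i)) = fun i => y (z i) := funext fun i => hy _ (hz i)
    rw [h1, h2]
    exact h.2 l z hz

/-- composition with a tuple of positions in `A` -/
theorem tpo_comp {A : Set W} {x y : W → V} (h : TpOn 𝔹 A x y) (z : W' → W) (hz : ∀ w, z w ∈ A) :
    tp 𝔹 (fun w => x (z w)) = tp 𝔹 (fun w => y (z w)) := by
  refine Prod.ext ?_ ?_
  · funext a b
    exact propext (h.1 _ (hz a) _ (hz b))
  · funext l w
    exact propext (h.2 l (fun i => z (w i)) fun i => hz _)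

theorem tpo_ty {A : Set W} {x y : W → V} (h : TpOn 𝔹 A x y) {a : W} (ha : a ∈ A) :
    ty 𝔹 (x a) = ty 𝔹 (y a) := by
  funext l
  exact propext (h.2 l (fun _ => a) fun _ => ha)

theorem tpo_of_tp {x y : W → V} (h : tp 𝔹 x = tp 𝔹 y) (A : Set W) : TpOn 𝔹 A x y :=
  ⟨fun a _ b _ => iff_of_eq (congrFun (congrFun (congrArg Prod.fst h) a) b),
    fun l z _ => iff_of_eq (congrFun (congrFun (congrArg Prod.snd h) l) z)⟩

theorem tp_of_tpOn {A : Set W} {x y : W → V} (h : TpOn 𝔹 A x y) (hA : ∀ w, w ∈ A) :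
    tp 𝔹 x = tp 𝔹 y := tpo_comp h id hA

theorem ty_of_tp {x y : W → V} (h : tp 𝔹 x = tp 𝔹 y) (a : W) : ty 𝔹 (x a) = ty 𝔹 (y a) :=
  tpo_ty (tpo_of_tp h Set.univ) (Set.mem_univ a)

theorem eq_of_tp {x y : W → V} (h : tp 𝔹 x = tp 𝔹 y) (a b : W) : x a = x b ↔ y a = y b :=
  (tpo_of_tp h Set.univ).1 a (Set.mem_univ a) b (Set.mem_univ b)

theorem rel_of_tp {x y : W → V} (h : tp 𝔹 x = tp 𝔹 y) (l : Fin ρ.m) (z : Fin (ρ.ar l) → W) :
    𝔹 l (fun i => x (z i)) ↔ 𝔹 l (fun i => y (z i)) :=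
  (tpo_of_tp h Set.univ).2 l z fun i => Set.mem_univ _

theorem comp_of_tp {x y : W → V} (h : tp 𝔹 x = tp 𝔹 y) (z : W' → W) :
    tp 𝔹 (fun w => x (z w)) = tp 𝔹 (fun w => y (z w)) :=
  tpo_comp (tpo_of_tp h Set.univ) z fun _ => Set.mem_univ _

/-- Tuples of the same type are in the same relations of `𝔸`. -/
theorem tyi_rel (ht : Tyi 𝔸 𝔹) {x y : W → V} (h : tp 𝔹 x = tp 𝔹 y) (l : Fin σ.m)
    (z : Fin (σ.ar l) → W) (hx : 𝔸 l (fun i => x (z i))) : 𝔸 l (fun i => y (z i)) :=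
  ht l _ _ hx (comp_of_tp h z).symm

theorem tyi_on (ht : Tyi 𝔸 𝔹) {A : Set W} {x y : W → V} (h : TpOn 𝔹 A x y) (l : Fin σ.m)
    (z : Fin (σ.ar l) → W) (hz : ∀ i, z i ∈ A) (hx : 𝔸 l (fun i => x (z i))) :
    𝔸 l (fun i => y (z i)) :=
  ht l _ _ hx (tpo_comp h z hz).symm

/-- Homogeneity without algebraicity, for finite subsets of a type which need not be finite. -/
theorem amg_fin (hB : HB 𝔹) (X : Finset W) (A : Set W) (hA : A ⊆ (X : Set W)) (x y : W → V)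
    (F : Finset V) (h : TpOn 𝔹 A x y) : ∃ x' : W → V, TpOn 𝔹 (X : Set W) x x' ∧
      (∀ a ∈ A, x' a = y a) ∧ ∀ w ∈ X, x' w ∈ F → ∃ a ∈ A, x' w = x' a := by
  obtain ⟨x'', h1, h2, h3⟩ := hB.amg {w // w ∈ X} {w | w.1 ∈ A} (fun w => x w.1)
    (fun w => y w.1) F ⟨fun a ha b hb => h.1 _ ha _ hb, fun l z hz => h.2 l _ hz⟩
  have h4 : ∀ w (hw : w ∈ X), (if hw : w ∈ X then x'' ⟨w, hw⟩ else y w) = x'' ⟨w, hw⟩ :=
    fun w hw => dif_pos hw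
  refine ⟨fun w => if hw : w ∈ X then x'' ⟨w, hw⟩ else y w, ⟨?_, ?_⟩, ?_, ?_⟩
  · intro a ha b hb
    show x a = x b ↔ (if hw : a ∈ X then x'' ⟨a, hw⟩ else y a) =
      if hw : b ∈ X then x'' ⟨b, hw⟩ else y b
    rw [h4 a ha, h4 b hb]
    exact (eq_of_tp h1 ⟨a, ha⟩ ⟨b, hb⟩).symm
  · intro l z hz
    have h5 : (fun i => if hw : z i ∈ X then x'' ⟨z i, hw⟩ else y (z i)) =
        fun i => x'' ⟨z i, hz i⟩ := funext fun i => h4 _ (hz i)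
    show 𝔹 l (fun i => x (z i)) ↔ 𝔹 l (fun i => if hw : z i ∈ X then x'' ⟨z i, hw⟩ else y (z i))
    rw [h5]
    exact (rel_of_tp h1 l fun i => ⟨z i, hz i⟩).symm
  · intro a ha
    show (if hw : a ∈ X then x'' ⟨a, hw⟩ else y a) = y a
    rw [h4 a (hA ha)]
    exact h2 ⟨a, hA ha⟩ ha
  · intro w hw hF
    have hF' : x'' ⟨w, hw⟩ ∈ F := by
      have h6 := h4 w hw
      rw [← h6]
      exact hF
    obtain ⟨a, ha, hwa⟩ := h3 ⟨w, hw⟩ hF'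
    refine ⟨a.1, ha, ?_⟩
    show (if hw : w ∈ X then x'' ⟨w, hw⟩ else y w) = if hw : a.1 ∈ X then x'' ⟨a.1, hw⟩ else y a.1
    rw [h4 w hw, h4 a.1 a.2]
    exact hwa

theorem en_id (𝔸 : Str σ V) (𝔹 : Str ρ V) : En 𝔸 𝔹 (fun v => v) :=
  ⟨fun _ _ h => h, fun _ => rfl⟩

theorem en_comp {g g' : V → V} (h : En 𝔸 𝔹 g) (h' : En 𝔸 𝔹 g') : En 𝔸 𝔹 (fun v => g (g' v)) :=
  ⟨fun l x hx => h.1 l _ (h'.1 l x hx), fun v => (h.2 _).trans (h'.2 v)⟩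

/-- Embeddings of `𝔹` are endomorphisms of `𝔸`. -/
theorem en_of_emb (ht : Tyi 𝔸 𝔹) {g : V → V}
    (hg : ∀ (J : Type) (a : J → V), tp 𝔹 (fun j => g (a j)) = tp 𝔹 a) : En 𝔸 𝔹 g :=
  ⟨fun l x hx => ht l _ _ hx (hg _ x), fun v => ty_of_tp (hg Unit fun _ => v) ()⟩

end Pool.Agent.H44.FB
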