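import Pool.Agent.H44.FB.All1
import Pool.Agent.H44.KR.All
import Pool.Agent.H57.LH.Targets
import Pool.Agent.H35.FB.RPT
import Pool.Agent.H36.FB.LST
import Pool.Agent.H39.FB.EPT
import Pool.Agent.H64.FBX.LSB
import Pool.Agent.H67.FB.ALW
import Pool.Agent.H68.FB.TPE
import Pool.Agent.H86.GM.CMP

/-!
# The injective part for structures with local completions: the theorem
-/

set_option autoImplicit false

namespace Pool.Agent.H44.FB

open Pool.Agent.H68.BP Pool.Agent.H58.SF Pool.Agent.H53.NR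

theorem a_F2 : F2 where
  alw := Pool.Agent.H67.FB.pf_ALW
  lsb := Pool.Agent.H64.FBX.pf_LSB
  lst := Pool.Agent.H36.FB.pf_LST Pool.Agent.H86.GM.pf_CMP
  tpe := Pool.Agent.H68.FB.pf_TPE
  ept := Pool.Agent.H39.FB.pf_EPT
  rpt := Pool.Agent.H35.FB.pf_RPT

/-- The template of the fibres has an Olšák polymorphism. -/
theorem pf_FIB : Pool.Agent.H57.LH.T_FIB := by
  intro V σ ρ 𝔸 𝔹 hC hO hK
  obtain ⟨N, hN, hR⟩ := Pool.Agent.H44.KR.ram_main hC.prs.hb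
  exact ⟨1, fun M hM => fib_main a_F1 a_F2 Pool.Agent.H53.GXR.All.a_OUX
    Pool.Agent.H53.GXR.All.a_ALG Pool.Agent.H53.GXR.All.a_LIMX Pool.Agent.H97.GM.pf_PAD
    hC.prs.hb hC.prs.cnt hC.prs.tyi hC.prm hC.ncb hK hN (hR 0)
    (Pool.Agent.H44.KR.a_P2.cyc V ρ 𝔹 hC.prs.hb N hN) M hM⟩

end Pool.Agent.H44.FB
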