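import Pool.Agent.H44.FB.Basics

/-!
# The injective part for structures with local completions: row INJ
-/

set_option autoImplicit false
set_option linter.unusedVariables false

namespace Pool.Agent.H44.FB

open Pool.Agent.H68.BP Pool.Agent.H58.SF Pool.Agent.H53.NR
open Pool.Agent.H57.AR (tp ty Ty)
open Pool.Agent.H57.EQ (Cx)
open Pool.Agent.H44.KR
open Function
open Classical

theorem vec_comp {X W : Type} (f : X → W) (a b : X) :
    (fun j => f ((![a, b] : Fin 2 → X) j)) = ![f a, f b] := by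
  funext j
  fin_cases j <;> rfl

/-- The kernel of a map on pairs in a copy. -/
theorem inj_up {V : Type} {ρ : Sig} {𝔹 : Str ρ V} (hR : RmuC 𝔹) (e : V → V) :
    ∃ c : Ty ρ (Fin 2) → Prop, ∀ (X : Type) [Finite X] (G : X → V) (rk : X → ℕ),
      Injective G → Injective rk → ∃ G' : X → V, tp 𝔹 G' = tp 𝔹 G ∧
        ∀ a b : X, rk a < rk b → (e (G' a) = e (G' b) ↔ c (tp 𝔹 ![G a, G b])) := by
  obtain ⟨c, hc⟩ := hR (Fin 2) Prop (fun a => e (a 0) = e (a 1))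
  refine ⟨fun t => c (t, fun i j => i = 0 ∧ j = 1), fun X _ G rk hG hrk => ?_⟩
  obtain ⟨G', h1, h2⟩ := hc X G rk hG hrk
  refine ⟨G', h1, fun a b hab => ?_⟩
  have h3 := h2 ![a, b]
  have h4 : (fun i j => rk ((![a, b] : Fin 2 → X) i) < rk ((![a, b] : Fin 2 → X) j)) =
      fun i j => i = 0 ∧ j = 1 := by
    funext i j
    fin_cases i <;> fin_cases j <;> simp [hab, hab.le]
  rw [vec_comp G a b, h4] at h3
  exact iff_of_eq h3

theorem inj_claim {V : Type} {σ ρ : Sig} {𝔸 : Str σ V} {𝔹 : Str ρ V} (ht : Tyi 𝔸 𝔹)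
    (hE : EmbC 𝔹) (hK : KlcC 𝔸 𝔹) (hZ : ZgzC 𝔹) (e : V → V) (he : En 𝔸 𝔹 e)
    (c : Ty ρ (Fin 2) → Prop)
    (hc : ∀ (X : Type) [Finite X] (G : X → V) (rk : X → ℕ),
      Injective G → Injective rk → ∃ G' : X → V, tp 𝔹 G' = tp 𝔹 G ∧
        ∀ a b : X, rk a < rk b → (e (G' a) = e (G' b) ↔ c (tp 𝔹 ![G a, G b])))
    (a b : V) (hab : ty 𝔹 b = ty 𝔹 a) (hne : a ≠ b) (hcab : c (tp 𝔹 ![a, b])) :
    Clp 𝔸 𝔹 (ty 𝔹 a) := by
  refine hK _ fun x y hx hy => ?_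
  by_cases hxy : x = y
  · exact ⟨_, en_id 𝔸 𝔹, hxy⟩
  obtain ⟨m, hm, hZ⟩ := hZ
  obtain ⟨f, hf, hf1, hf2⟩ := hZ ![a, b] ![x, y] hne hxy hab hx hy
  let rk : Fin (2 * m + 2) → ℕ := fun i => if (i : ℕ) % 2 = 0 then i else i + (2 * m + 2)
  have hrk0 : ∀ i : Fin (2 * m + 2), (i : ℕ) % 2 = 0 → rk i = i := fun i h => if_pos h
  have hrk1 : ∀ i : Fin (2 * m + 2), (i : ℕ) % 2 = 1 → rk i = i + (2 * m + 2) :=
    fun i h => if_neg (by omega)
  have hrk : Injective rk := by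
    intro i j hij
    have hi := i.2
    have hj := j.2
    apply Fin.ext
    rcases Nat.mod_two_eq_zero_or_one i with h | h <;>
      rcases Nat.mod_two_eq_zero_or_one j with h' | h'
    · rw [hrk0 i h, hrk0 j h'] at hij
      exact hij
    · rw [hrk0 i h, hrk1 j h'] at hij
      omega
    · rw [hrk1 i h, hrk0 j h'] at hij
      omega
    · rw [hrk1 i h, hrk1 j h'] at hij
      omega
  obtain ⟨G', h1, h2⟩ := hc (Fin (2 * m + 2)) f rk hf hrk
  have hst : ∀ i i' : Fin (2 * m + 2), (i' : ℕ) = i + 1 → e (G' i) = e (G' i') := by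
    intro i i' hii
    have hi := i.2
    have hi' := i'.2
    rcases Nat.mod_two_eq_zero_or_one i with h | h
    · have h3 : rk i < rk i' := by
        rw [hrk0 i h, hrk1 i' (by omega)]
        omega
      refine (h2 i i' h3).2 ?_
      rw [(hf1 i i' hii).1 h]
      exact hcab
    · have h3 : rk i' < rk i := by
        rw [hrk1 i h, hrk0 i' (by omega)]
        omega
      refine ((h2 i' i h3).2 ?_).symm
      rw [(hf1 i i' hii).2 h]
      exact hcab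
  have hind : ∀ (k : ℕ) (hk : k < 2 * m + 2), e (G' 0) = e (G' ⟨k, hk⟩) := by
    intro k
    induction k with
    | zero => intro hk; rfl
    | succ k ih => exact fun hk => (ih (by omega)).trans (hst _ _ rfl)
  have h4 : tp 𝔹 ![x, y] = tp 𝔹 ![G' 0, G' (Fin.last (2 * m + 1))] := by
    rw [← hf2, ← vec_comp f 0 (Fin.last (2 * m + 1)), ← vec_comp G' 0 (Fin.last (2 * m + 1))]
    exact (comp_of_tp h1 ![0, Fin.last (2 * m + 1)]).symm
  obtain ⟨g, hg1, hg2⟩ := hE (Fin 2) ![x, y] ![G' 0, G' (Fin.last (2 * m + 1))] h4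
  refine ⟨fun v => e (g v), en_comp he (en_of_emb ht hg1), ?_⟩
  have h5 : g x = G' 0 := hg2 0
  have h6 : g y = G' (Fin.last (2 * m + 1)) := hg2 1
  show e (g x) = e (g y)
  rw [h5, h6]
  exact hind _ _

theorem pf_INJ : T_INJ := by
  intro V σ ρ 𝔸 𝔹 _ ht hR hE hRg hK hZ X
  obtain ⟨e, he, hrg⟩ := hRg
  obtain ⟨c, hc⟩ := inj_up hR e
  obtain ⟨G', h1, h2⟩ := hc {v // v ∈ X} Subtype.val
    (fun u => (Finite.equivFin {v // v ∈ X} u : ℕ)) Subtype.val_injective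
    (Fin.val_injective.comp (Finite.equivFin _).injective)
  have h3 : ∀ u (hu : u ∈ X), (if h : u ∈ X then e (G' ⟨u, h⟩) else u) = e (G' ⟨u, hu⟩) :=
    fun u hu => dif_pos hu
  have hcl : ∀ (x y : V) (hx : x ∈ X) (hy : y ∈ X), ty 𝔹 y = ty 𝔹 x → x ≠ y →
      (Finite.equivFin {v // v ∈ X} ⟨x, hx⟩ : ℕ) < Finite.equivFin {v // v ∈ X} ⟨y, hy⟩ →
      e (G' ⟨x, hx⟩) = e (G' ⟨y, hy⟩) → Clp 𝔸 𝔹 (ty 𝔹 x) := by
    intro x y hx hy hxy hne hlt heq
    exact inj_claim ht hE hK hZ e he c hc x y hxy hne ((h2 ⟨x, hx⟩ ⟨y, hy⟩ hlt).1 heq)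
  refine ⟨fun u => if h : u ∈ X then e (G' ⟨u, h⟩) else u, ?_, fun x hx => ?_,
    fun x hx y hy hxy hcp hne => ⟨fun heq => hcp ?_, ?_⟩⟩
  · intro l z hz hA
    have h5 : (fun i => if h : z i ∈ X then e (G' ⟨z i, h⟩) else z i) =
        fun i => e (G' ⟨z i, hz i⟩) := funext fun i => h3 _ (hz i)
    show 𝔸 l (fun i => if h : z i ∈ X then e (G' ⟨z i, h⟩) else z i)
    rw [h5]
    exact he.1 l _ (tyi_rel ht h1.symm l (fun i => ⟨z i, hz i⟩) hA)
  · show ty 𝔹 (if h : x ∈ X then e (G' ⟨x, h⟩) else x) = ty 𝔹 x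
    rw [h3 x hx, he.2]
    exact ty_of_tp h1 ⟨x, hx⟩
  · have heq' : e (G' ⟨x, hx⟩) = e (G' ⟨y, hy⟩) := by
      rw [← h3 x hx, ← h3 y hy]
      exact heq
    rcases lt_trichotomy (Finite.equivFin {v // v ∈ X} ⟨x, hx⟩ : ℕ)
      (Finite.equivFin {v // v ∈ X} ⟨y, hy⟩) with h | h | h
    · exact hcl x y hx hy hxy.symm hne h heq'
    · exact absurd (congrArg Subtype.val ((Finite.equivFin _).injective (Fin.ext h))) hne
    · rw [hxy]
      exact hcl y x hy hx hxy hne.symm h heq'.symm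
  · show Rg 𝔸 𝔹 (if h : x ∈ X then e (G' ⟨x, h⟩) else x) (if h : y ∈ X then e (G' ⟨y, h⟩) else y)
    rw [h3 x hx, h3 y hy]
    exact hrg _ _

end Pool.Agent.H44.FB
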