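import Pool.Agent.H44.FB.Basics

/-!
# The injective part for structures with local completions: row PRO
-/

set_option autoImplicit false
set_option linter.unusedVariables false

namespace Pool.Agent.H44.FB

open Pool.Agent.H68.BP Pool.Agent.H58.SF Pool.Agent.H53.NR
open Pool.Agent.H57.AR (tp ty Ty)
open Pool.Agent.H57.EQ (Cx)
open Pool.Agent.H44.KR
open Function
open Classical

theorem val_succ' {N : ℕ} (a : ZMod (N + 3)) (ha : a ≠ -1) : (a + 1).val = a.val + 1 := by
  have h1 : a.val ≠ N + 2 := by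
    intro h
    apply ha
    apply ZMod.val_injective (N + 3)
    rw [h]
    exact (ZMod.val_neg_one (N + 2)).symm
  have h2 : a.val < N + 3 := ZMod.val_lt a
  have h3 : (1 : ZMod (N + 3)).val = 1 := ZMod.val_one'' (by omega)
  rw [ZMod.val_add_of_lt (by rw [h3]; omega), h3]

theorem pf_PRO : T_PRO := by
  intro V σ ρ 𝔸 𝔹 hB ht N hcyg X w hG htre v
  obtain ⟨L, hL0, hL⟩ := htre v
  refine ⟨L (N + 2), fun P _ _ f hf γ hγ x hx y hy hd htt => ?_⟩
  let W : Type := Σ a : ZMod (N + 3), {u : V // u ∈ L (ZMod.val a)}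
  have hWf : Finite W := inferInstance
  have hv1 : (-1 : ZMod (N + 3)).val = N + 2 := ZMod.val_neg_one (N + 2)
  have hext : ∀ q q' : W, q.1 = q'.1 → (q.2 : V) = q'.2 → q = q' := by
    rintro ⟨a, u, hu⟩ ⟨b, u', hu'⟩ h h'
    dsimp only at h h'
    subst h
    subst h'
    rfl
  have h01 : (0 : ZMod (N + 3)) ≠ -1 := by
    intro h
    have h2 := congrArg ZMod.val h
    rw [ZMod.val_zero, hv1] at h2
    omega
  have hm1 : (-1 : ZMod (N + 3)) + 1 = 0 := by ring
  have hlast : ∀ q : W, q.1 = -1 → (q.2 : V) ∈ L (N + 2) := by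
    rintro ⟨a, u, hu⟩ h
    dsimp only at h
    subst h
    rw [hv1] at hu
    exact hu
  have hzero : ∀ q : W, q.1 = 0 → (q.2 : V) = v := by
    rintro ⟨a, u, hu⟩ h
    dsimp only at h
    subst h
    rw [ZMod.val_zero, hL0] at hu
    exact Finset.mem_singleton.1 hu
  let m : P → ZMod (N + 3) → W → V := fun p a q =>
    if a = -1 then (if q.1 = 0 then x p else y q.2) else q.2
  have hma : ∀ p a q, a ≠ -1 → m p a q = q.2 := fun p a q h => if_neg h
  have hm0 : ∀ p (q : W), q.1 = 0 → m p (-1) q = x p := fun p q h => by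
    show (if (-1 : ZMod (N + 3)) = -1 then (if q.1 = 0 then x p else y q.2) else (q.2 : V)) = x p
    rw [if_pos rfl, if_pos h]
  have hml : ∀ p (q : W), q.1 = -1 → m p (-1) q = y q.2 := fun p q h => by
    show (if (-1 : ZMod (N + 3)) = -1 then (if q.1 = 0 then x p else y q.2) else (q.2 : V)) =
      y q.2
    rw [if_pos rfl, if_neg (by rw [h]; exact h01.symm)]
  have hstep : ∀ a : ZMod (N + 3), a ≠ -1 → ∀ q q' : W, q.1 = a → q'.1 = a + 1 →
      (q.2 : V) ≠ q'.2 := by
    rintro a ha ⟨b, u, hu⟩ ⟨b', u', hu'⟩ h h' h''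
    dsimp only at h h' h''
    subst h
    subst h'
    rw [val_succ' _ ha] at hu'
    exact Finset.disjoint_left.1 (hL.dis _) hu (h'' ▸ hu')
  have key : ∀ p : P, ∃ F : W → V,
      (∀ a, TpOn 𝔹 {q : W | q.1 = a ∨ q.1 = a + 1} (m p a) F) ∧
      ∀ q : W, (q.1 = -1 ∨ q.1 = -1 + 1) → F q = m p (-1) q := by
    intro p
    obtain ⟨f₀, hf₀⟩ := hcyg W Sigma.fst (m p) (by
      intro a q hq q' hq' h
      by_cases ha : a = -1
      · subst ha
        have hq2 : q.1 = -1 ∨ q.1 = 0 := by rw [← hm1]; exact hq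
        have hq2' : q'.1 = -1 ∨ q'.1 = 0 := by rw [← hm1]; exact hq'
        rcases hq2 with h1 | h1 <;> rcases hq2' with h2 | h2
        · rw [hml p q h1, hml p q' h2] at h
          exact hext q q' (h1.trans h2.symm) ((hy.1 _ (hlast q h1) _ (hlast q' h2)).2 h)
        · rw [hml p q h1, hm0 p q' h2] at h
          exact absurd h (hd p _ (hlast q h1))
        · rw [hm0 p q h1, hml p q' h2] at h
          exact absurd h.symm (hd p _ (hlast q' h2))
        · exact hext q q' (h1.trans h2.symm) ((hzero q h1).trans (hzero q' h2).symm)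
      · rw [hma p a q ha, hma p a q' ha] at h
        rcases hq with h1 | h1 <;> rcases hq' with h2 | h2
        · exact hext q q' (h1.trans h2.symm) h
        · exact absurd h (hstep a ha q q' h1 h2)
        · exact absurd h.symm (hstep a ha q' q h2 h1)
        · exact hext q q' (h1.trans h2.symm) h) (by
      intro a
      by_cases ha : a = -1
      · subst ha
        rw [hm1]
        have h1 : ∀ q ∈ {q : W | q.1 = 0}, m p (-1) q = x p := fun q hq => hm0 p q hq
        have h2 : ∀ q ∈ {q : W | q.1 = 0}, m p 0 q = v := fun q hq =>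
          (hma p 0 q h01).trans (hzero q hq)
        refine ⟨fun a ha b hb => ?_, fun l z hz => ?_⟩
        · rw [h1 a ha, h1 b hb, h2 a ha, h2 b hb]
          exact ⟨fun _ => rfl, fun _ => rfl⟩
        · have h3 : (fun i => m p (-1) (z i)) = fun _ => x p := funext fun i => h1 _ (hz i)
          have h4 : (fun i => m p 0 (z i)) = fun _ => v := funext fun i => h2 _ (hz i)
          rw [h3, h4]
          exact iff_of_eq (congrFun (hx p) l)
      · by_cases ha1 : a + 1 = -1
        · rw [ha1]
          refine ⟨fun q hq q' hq' => ?_, fun l z hz => ?_⟩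
          · rw [hma p a q ha, hma p a q' ha, hml p q hq, hml p q' hq']
            exact hy.1 _ (hlast q hq) _ (hlast q' hq')
          · have h3 : (fun i => m p a (z i)) = fun i => ((z i).2 : V) :=
              funext fun i => hma p a _ ha
            have h4 : (fun i => m p (-1) (z i)) = fun i => y (z i).2 :=
              funext fun i => hml p _ (hz i)
            rw [h3, h4]
            exact hy.2 l (fun i => ((z i).2 : V)) fun i => hlast _ (hz i)
        · exact tpo_congr (tpo_refl _ (fun q : W => (q.2 : V))) (fun q _ => hma p a q ha)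
            (fun q _ => hma p (a + 1) q ha1))
    obtain ⟨F, h1, h2, -⟩ := hB.amg W {q : W | q.1 = -1 ∨ q.1 = -1 + 1} f₀ (m p (-1)) ∅
      (tpo_symm (hf₀ (-1)))
    exact ⟨F, fun a => tpo_trans (hf₀ a) (tpo_of_tp h1.symm _), fun q hq => h2 q hq⟩
  choose F hF1 hF2 using key
  have claim : ∀ (d : ℕ) (q : W), q.1.val + d = N + 2 →
      ty 𝔹 (f fun p => F p q) = γ (ty 𝔹 (q.2 : V)) := by
    intro d
    induction d with
    | zero =>
      intro q hq
      have h1 : q.1 = -1 := by
        apply ZMod.val_injective (N + 3)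
        rw [hv1]
        omega
      have h2 : (fun p => F p q) = fun _ => y q.2 := funext fun p => by
        rw [hF2 p q (Or.inl h1), hml p q h1]
      rw [h2]
      exact htt _ (hlast q h1)
    | succ d ih =>
      intro q hq
      have hq1 : q.1 ≠ -1 := by
        intro h
        rw [h, hv1] at hq
        omega
      obtain ⟨j, hj1, hj2, hj3⟩ := hL.cpy q.1.val q.2 q.2.2
      let p₀ : V := w (ty 𝔹 (q.2 : V))
      have hmem : ∀ x', x' ∈ X ∧ x' ≠ p₀ → j x' ∈ L (ZMod.val (q.1 + 1)) := by
        intro x' hx'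
        rw [val_succ' _ hq1]
        exact hj3 x' hx'.1 hx'.2
      let r : V → W := fun x' =>
        if h : x' ∈ X ∧ x' ≠ p₀ then ⟨q.1 + 1, ⟨j x', hmem x' h⟩⟩ else q
      have hr1 : ∀ x' (h : x' ∈ X ∧ x' ≠ p₀), r x' = ⟨q.1 + 1, ⟨j x', hmem x' h⟩⟩ :=
        fun x' h => dif_pos h
      have hr2 : r p₀ = q := dif_neg fun h => h.2 rfl
      have hr3 : ∀ x' ∈ X, ((r x').1 = q.1 ∨ (r x').1 = q.1 + 1) ∧ ((r x').2 : V) = j x' := by
        intro x' hx'
        by_cases h : x' = p₀
        · subst h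
          rw [hr2]
          exact ⟨Or.inl rfl, hj2.symm⟩
        · rw [hr1 x' ⟨hx', h⟩]
          exact ⟨Or.inr rfl, rfl⟩
      have h5 := hG.rt (ty 𝔹 (q.2 : V)) ⟨_, rfl⟩ γ hγ (fun x' => f fun p => F p (r x')) (by
        intro l z hz hA
        refine hf l (fun p i => F p (r (z i))) fun p => ?_
        have h6 := tpo_comp (hF1 p q.1) (fun i => r (z i)) fun i => (hr3 _ (hz i)).1
        have h7 : (fun i => m p q.1 (r (z i))) = fun i => j (z i) := funext fun i =>
          (hma p q.1 _ hq1).trans (hr3 _ (hz i)).2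
        have h8 := tpo_comp hj1 z fun i => hz i
        rw [h7, ← h8] at h6
        exact ht l z _ hA h6.symm) (by
        intro x' hx' hne
        have h6 := ih (r x') (by
          rw [hr1 x' ⟨hx', hne⟩]
          show (q.1 + 1).val + d = N + 2
          rw [val_succ' _ hq1]
          omega)
        rw [(hr3 x' hx').2, ← tpo_ty hj1 hx'] at h6
        exact h6)
      have h6 : r (w (ty 𝔹 (q.2 : V))) = q := hr2
      rw [h6] at h5
      exact h5
  have hv0 : v ∈ L (ZMod.val (0 : ZMod (N + 3))) := by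
    rw [ZMod.val_zero, hL0]
    exact Finset.mem_singleton_self v
  have h9 := claim (N + 2) ⟨0, ⟨v, hv0⟩⟩ (by
    show ZMod.val (0 : ZMod (N + 3)) + (N + 2) = N + 2
    rw [ZMod.val_zero]
    omega)
  have h10 : (fun p => F p ⟨0, ⟨v, hv0⟩⟩) = x := funext fun p => by
    rw [hF2 p _ (Or.inr hm1.symm)]
    exact hm0 p _ rfl
  rw [h10] at h9
  exact h9

end Pool.Agent.H44.FB
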