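import Pool.Agent.H44.FB.Basics

/-!
# The injective part for structures with local completions: row RIG
-/

set_option autoImplicit false
set_option linter.unusedVariables false

namespace Pool.Agent.H44.FB

open Pool.Agent.H68.BP Pool.Agent.H58.SF Pool.Agent.H53.NR
open Pool.Agent.H57.AR (tp ty Ty)
open Pool.Agent.H57.EQ (Cx)
open Pool.Agent.H44.KR
open Function
open Classical

/-- the type of a single element -/
theorem tp_unit {V : Type} {ρ : Sig} (𝔹 : Str ρ V) (v : V) :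
    tp 𝔹 (fun _ : Unit => v) = (fun _ _ => True, fun l _ => ty 𝔹 v l) := by
  refine Prod.ext ?_ ?_
  · funext a b
    exact propext ⟨fun _ => trivial, fun _ => rfl⟩
  · funext l z
    rfl

/-- The uniform Ramsey property for single elements. -/
theorem rmu_one {V : Type} {ρ : Sig} {𝔹 : Str ρ V} (hR : RmuC 𝔹) (Y : Type) [Finite Y]
    (χ : V → Y) : ∃ c : (Fin ρ.m → Prop) → Y, ∀ F : Finset V, ∃ y : V → V,
      TpOn 𝔹 (F : Set V) (fun v => v) y ∧ ∀ u ∈ F, χ (y u) = c (ty 𝔹 u) := by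
  obtain ⟨c, hc⟩ := hR Unit Y (fun a => χ (a ()))
  refine ⟨fun t => c ((fun _ _ => True, fun l _ => t l), fun _ _ => False), fun F => ?_⟩
  obtain ⟨G', h1, h2⟩ := hc {u // u ∈ F} Subtype.val
    (fun u => (Finite.equivFin {u // u ∈ F} u : ℕ)) Subtype.val_injective
    (Fin.val_injective.comp (Finite.equivFin _).injective)
  have h3 : ∀ u (hu : u ∈ F), (if h : u ∈ F then G' ⟨u, h⟩ else u) = G' ⟨u, hu⟩ :=
    fun u hu => dif_pos hu
  refine ⟨fun u => if h : u ∈ F then G' ⟨u, h⟩ else u, ⟨fun a ha b hb => ?_, fun l z hz => ?_⟩,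
    fun u hu => ?_⟩
  · show a = b ↔ (if h : a ∈ F then G' ⟨a, h⟩ else a) = if h : b ∈ F then G' ⟨b, h⟩ else b
    rw [h3 a ha, h3 b hb]
    exact (eq_of_tp h1 ⟨a, ha⟩ ⟨b, hb⟩).symm
  · have h5 : (fun i => if h : z i ∈ F then G' ⟨z i, h⟩ else z i) =
        fun i => G' ⟨z i, hz i⟩ := funext fun i => h3 _ (hz i)
    show 𝔹 l (fun i => z i) ↔ 𝔹 l (fun i => if h : z i ∈ F then G' ⟨z i, h⟩ else z i)
    rw [h5]
    exact (rel_of_tp h1 l fun i => ⟨z i, hz i⟩).symm
  · show χ (if h : u ∈ F then G' ⟨u, h⟩ else u) = _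
    rw [h3 u hu]
    have h6 := h2 (fun _ => ⟨u, hu⟩)
    rw [tp_unit] at h6
    have h7 : (fun (i j : Unit) => ((Finite.equivFin {u // u ∈ F} ⟨u, hu⟩ : ℕ) <
        (Finite.equivFin {u // u ∈ F} ⟨u, hu⟩ : ℕ))) = fun _ _ => False := by
      funext i j
      exact propext ⟨fun h => absurd h (lt_irrefl _), fun h => h.elim⟩
    rw [h7] at h6
    exact h6

theorem pf_RIG : T_RIG := by
  intro V σ ρ 𝔸 𝔹 hB ht hR hP P _ _ f hf
  have hg : IsHom 𝔸 𝔸 (fun v => f fun _ => v) := fun l x hx => hf l (fun _ => x) fun _ => hx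
  obtain ⟨γ, hγ⟩ := rmu_one hR (Fin ρ.m → Prop) (fun v => ty 𝔹 (f fun _ => v))
  have hSb : Sb 𝔸 𝔹 γ := by
    intro W _ G
    have : Fintype W := Fintype.ofFinite W
    obtain ⟨y, h1, h2⟩ := hγ (Finset.univ.image G)
    have hm : ∀ w, G w ∈ Finset.univ.image G := fun w =>
      Finset.mem_image_of_mem G (Finset.mem_univ w)
    refine ⟨fun w => f fun _ => y (G w), fun l z hz => ?_, fun w => h2 _ (hm w)⟩
    exact hg l (fun i => y (G (z i))) (tyi_on ht h1 l (fun i => G (z i)) (fun i => hm _) (hz ()))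
  have hun : ∀ v, ty 𝔹 (f fun _ => v) = γ (ty 𝔹 v) := by
    intro v
    by_contra hne
    obtain ⟨F, hF⟩ := hP v
    obtain ⟨y, h1, h2⟩ := hγ F
    have h3 : ∀ u ∈ F, y u ≠ v := by
      intro u hu h
      apply hne
      rw [← h]
      rw [h2 u hu, tpo_ty h1 hu]
    exact hne (hF Unit (fun z => f fun _ => z ()) (fun l x hx => hg l (x ()) (hx ())) γ hSb
      (fun _ => v) (fun _ => rfl) y h1 (fun _ u hu => h3 u hu) h2)
  refine ⟨γ, hSb, fun x s hs => ?_⟩
  have : Fintype P := Fintype.ofFinite P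
  let p₀ : P := Classical.arbitrary P
  obtain ⟨F, hF⟩ := hP (x p₀)
  obtain ⟨y, h1, -, h3⟩ := amg_fin hB F ∅ (Set.empty_subset _) (fun v => v) (fun v => v)
    (Finset.univ.image x) ⟨fun a ha => absurd ha (Set.notMem_empty a), fun l z hz =>
      absurd (hz ⟨0, hB.ar l⟩) (Set.notMem_empty _)⟩
  have h4 := hF P f hf γ hSb x (fun p => (hs p).trans (hs p₀).symm) y h1 (fun p u hu h => by
      obtain ⟨a, ha, -⟩ := h3 u hu (by
        rw [h]
        exact Finset.mem_image_of_mem x (Finset.mem_univ p))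
      exact ha) (fun u hu => by
      rw [hun (y u)]
      exact congrArg γ (tpo_ty h1 hu).symm)
  rw [h4, hs p₀]

end Pool.Agent.H44.FB
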