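import Pool.Agent.H44.FB.Basics

/-!
# The injective part for structures with local completions: rows GLO, EMB, KLC, TRE
-/

set_option autoImplicit false
set_option linter.unusedVariables false

namespace Pool.Agent.H44.FB

open Pool.Agent.H68.BP Pool.Agent.H58.SF Pool.Agent.H53.NR
open Pool.Agent.H57.AR (tp ty Ty)
open Pool.Agent.H57.EQ (Cx)
open Pool.Agent.H44.KR
open Function
open Classical

theorem pf_GLO : T_GLO := by
  intro V σ ρ 𝔸 𝔹 hB hc ht hcpt γ hγ
  obtain ⟨f, -, hf⟩ := hcpt V ∅ id (fun Y F => (∀ (l : Fin σ.m) (z : Fin (σ.ar l) → V),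
      (∀ i, z i ∈ Y) → 𝔸 l z → 𝔸 l (fun i => F (z i))) ∧ ∀ v ∈ Y, ty 𝔹 (F v) = γ (ty 𝔹 v))
    (fun Y => by
      obtain ⟨ψ, h1, h2⟩ := hγ {v // v ∈ Y} Subtype.val
      have h3 : ∀ v (hv : v ∈ Y), (if h : v ∈ Y then ψ ⟨v, h⟩ else v) = ψ ⟨v, hv⟩ :=
        fun v hv => dif_pos hv
      refine ⟨fun v => if h : v ∈ Y then ψ ⟨v, h⟩ else v, ⟨fun l z hz hA => ?_, fun v hv => ?_⟩,
        fun x hx => absurd hx (Finset.notMem_empty x)⟩
      · have h4 := h1 l (fun i => ⟨z i, hz i⟩) fun _ => hA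
        have h5 : (fun i => if h : z i ∈ Y then ψ ⟨z i, h⟩ else z i) =
            fun i => ψ ⟨z i, hz i⟩ := funext fun i => h3 _ (hz i)
        show 𝔸 l (fun i => if h : z i ∈ Y then ψ ⟨z i, h⟩ else z i)
        rw [h5]
        exact h4
      · show ty 𝔹 (if h : v ∈ Y then ψ ⟨v, h⟩ else v) = γ (ty 𝔹 v)
        rw [h3 v hv]
        exact h2 ⟨v, hv⟩)
    (fun Y Y' F hY h => ⟨fun l z hz => h.1 l z fun i => hY (hz i), fun v hv => h.2 v (hY hv)⟩)
    (fun Y F F' h hF => ⟨fun l z hz hA => tyi_on ht hF l z (fun i => hz i) (h.1 l z hz hA),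
      fun v hv => (tpo_ty hF hv).symm.trans (h.2 v hv)⟩)
  refine ⟨f, fun l x hx => ?_, fun v => ?_⟩
  · exact (hf (Finset.univ.image x)).1 l x
      (fun i => Finset.mem_image_of_mem x (Finset.mem_univ i)) hx
  · exact (hf {v}).2 v (Finset.mem_singleton_self v)

theorem pf_EMB : T_EMB := by
  intro V ρ 𝔹 hB hc hcpt W _ x y hxy
  have : Fintype W := Fintype.ofFinite W
  let U : Finset V := Finset.univ.image x
  let g₀ : V → V := fun v => if h : ∃ w, x w = v then y h.choose else v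
  have hg : ∀ w, g₀ (x w) = y w := by
    intro w
    have h1 : ∃ w', x w' = x w := ⟨w, rfl⟩
    show (if h : ∃ w', x w' = x w then y h.choose else x w) = y w
    rw [dif_pos h1]
    exact (eq_of_tp hxy _ _).1 h1.choose_spec
  have hU : TpOn 𝔹 (U : Set V) (fun v => v) g₀ := by
    have hex : ∀ v ∈ (U : Set V), ∃ w, x w = v := by
      intro v hv
      obtain ⟨w, -, hw⟩ := Finset.mem_image.1 hv
      exact ⟨w, hw⟩
    refine ⟨fun a ha b hb => ?_, fun l z hz => ?_⟩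
    · obtain ⟨w, rfl⟩ := hex a ha
      obtain ⟨w', rfl⟩ := hex b hb
      rw [hg, hg]
      exact eq_of_tp hxy w w'
    · choose u hu using fun i => hex (z i) (hz i)
      have h2 : z = fun i => x (u i) := funext fun i => (hu i).symm
      have h3 : (fun i => g₀ (z i)) = fun i => y (u i) := by
        funext i
        rw [← hu i, hg]
      rw [h3]
      have h4 : (fun i => z i) = fun i => x (u i) := h2
      rw [h4]
      exact rel_of_tp hxy l u
  obtain ⟨f, hf1, hf2⟩ := hcpt V U g₀ (fun Y F => TpOn 𝔹 (Y : Set V) (fun v => v) F)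
    (fun Y => by
      obtain ⟨F, h1, h2, -⟩ := amg_fin hB (Y ∪ U) (U : Set V)
        (by
          intro v hv
          exact Finset.mem_coe.2 (Finset.mem_union_right _ hv))
        (fun v => v) g₀ ∅ hU
      exact ⟨F, tpo_mono h1 (by
        intro v hv
        exact Finset.mem_coe.2 (Finset.mem_union_left _ hv)), fun v hv => h2 v hv⟩)
    (fun Y Y' F hY h => tpo_mono h (by
      intro v hv
      exact hY hv))
    (fun Y F F' h hF => tpo_trans h hF)
  refine ⟨f, fun J a => ?_, fun w => ?_⟩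
  · refine Prod.ext ?_ ?_
    · funext i j
      refine propext ?_
      have h3 := (hf2 {a i, a j}).1 (a i) (by simp) (a j) (by simp)
      exact h3.symm
    · funext l z
      refine propext ?_
      have h3 := (hf2 (Finset.univ.image fun i => a (z i))).2 l (fun i => a (z i)) (fun i =>
        Finset.mem_coe.2 (Finset.mem_image_of_mem (fun i => a (z i)) (Finset.mem_univ i)))
      exact h3.symm
  · rw [hf1 (x w) (Finset.mem_image_of_mem x (Finset.mem_univ w))]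
    exact hg w

theorem pf_KLC : T_KLC := by
  intro V σ ρ 𝔸 𝔹 s hs W _ G
  have : Fintype W := Fintype.ofFinite W
  let T : Finset W := Finset.univ.filter fun w => ty 𝔹 (G w) = s
  have hex : ∃ n : ℕ, ∃ g : V → V, En 𝔸 𝔹 g ∧ (T.image fun w => g (G w)).card = n :=
    ⟨_, fun v => v, en_id 𝔸 𝔹, rfl⟩
  obtain ⟨g, hg, hn⟩ := Nat.find_spec hex
  have key : ∀ w ∈ T, ∀ w' ∈ T, g (G w) = g (G w') := by
    intro w hw w' hw'
    by_contra hne
    have h1 : ty 𝔹 (g (G w)) = s := (hg.2 _).trans (Finset.mem_filter.1 hw).2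
    have h2 : ty 𝔹 (g (G w')) = s := (hg.2 _).trans (Finset.mem_filter.1 hw').2
    obtain ⟨g', hg', h3⟩ := hs _ _ h1 h2
    have h4 : (T.image fun w => g' (g (G w))) = (T.image fun w => g (G w)).image g' := by
      rw [Finset.image_image]
      rfl
    have h5 : (T.image fun w => g' (g (G w))).card < Nat.find hex := by
      rw [h4]
      conv_rhs => rw [← hn]
      refine lt_of_le_of_ne Finset.card_image_le fun h6 => ?_
      have h7 := Finset.card_image_iff.1 h6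
      exact hne (h7 (Finset.mem_coe.2 (Finset.mem_image_of_mem (fun w => g (G w)) hw))
        (Finset.mem_coe.2 (Finset.mem_image_of_mem (fun w => g (G w)) hw')) h3)
    exact Nat.find_min hex h5 ⟨fun v => g' (g v), en_comp hg' hg, rfl⟩
  refine ⟨fun w => g (G w), fun l z hz => hg.1 l _ (hz ()), fun w w' hw hw' => ?_⟩
  exact key w (Finset.mem_filter.2 ⟨Finset.mem_univ _, hw⟩) w'
    (Finset.mem_filter.2 ⟨Finset.mem_univ _, hw'⟩)

theorem pf_TRE : T_TRE := by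
  intro V ρ 𝔹 hB X w hw v
  have step : ∀ L : Finset V, ∃ L' : Finset V, Disjoint L L' ∧ ∀ u ∈ L, ∃ j : V → V,
      TpOn 𝔹 (X : Set V) id j ∧ j (w (ty 𝔹 u)) = u ∧
        ∀ x ∈ X, x ≠ w (ty 𝔹 u) → j x ∈ L' := by
    intro L
    have h1 : ∀ u : V, ∃ j : V → V, TpOn 𝔹 (X : Set V) id j ∧ j (w (ty 𝔹 u)) = u ∧
        ∀ x ∈ X, x ≠ w (ty 𝔹 u) → j x ∉ L := by
      intro u
      obtain ⟨hm, htw⟩ := hw (ty 𝔹 u) ⟨u, rfl⟩
      obtain ⟨j, h2, h3, h4⟩ := amg_fin hB X {w (ty 𝔹 u)} (by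
          intro a ha
          rw [Set.mem_singleton_iff.1 ha]
          exact hm) id (fun _ => u) L (by
          refine ⟨fun a ha b hb => ?_, fun l z hz => ?_⟩
          · rw [Set.mem_singleton_iff.1 ha, Set.mem_singleton_iff.1 hb]
            exact ⟨fun _ => rfl, fun _ => rfl⟩
          · have h5 : (fun i => id (z i)) = fun _ => w (ty 𝔹 u) :=
              funext fun i => Set.mem_singleton_iff.1 (hz i)
            rw [h5]
            exact iff_of_eq (congrFun htw l))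
      refine ⟨j, h2, h3 _ rfl, fun x hx hne hxL => ?_⟩
      obtain ⟨a, ha, hxa⟩ := h4 x hx hxL
      rw [Set.mem_singleton_iff.1 ha] at hxa
      exact hne ((h2.1 x hx _ hm).2 hxa)
    choose j h2 h3 h4 using h1
    refine ⟨L.biUnion fun u => (X.filter fun x => x ≠ w (ty 𝔹 u)).image (j u), ?_,
      fun u hu => ⟨j u, h2 u, h3 u, fun x hx hne => ?_⟩⟩
    · rw [Finset.disjoint_left]
      intro a ha ha'
      obtain ⟨u, hu, h5⟩ := Finset.mem_biUnion.1 ha'
      obtain ⟨x, hx, h6⟩ := Finset.mem_image.1 h5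
      obtain ⟨hx1, hx2⟩ := Finset.mem_filter.1 hx
      exact h4 u x hx1 hx2 (h6 ▸ ha)
    · exact Finset.mem_biUnion.2 ⟨u, hu, Finset.mem_image_of_mem _
        (Finset.mem_filter.2 ⟨hx, hne⟩)⟩
  choose nx hn1 hn2 using step
  refine ⟨fun k => Nat.rec {v} (fun _ L => nx L) k, rfl, ⟨fun k => hn1 _, fun k u hu => ?_⟩⟩
  exact hn2 _ u hu

theorem pf_FIN : T_FIN := by
  intro V σ ρ 𝔸 𝔹 hB hc ht hcpt hrig hneq hinv P _ _ U
  by_contra hcon
  push Not at hcon
  let Good : ((P → V) → V) → Prop := fun F => (∃ γ, Sb 𝔸 𝔹 γ ∧ ∀ x ∈ U, ∀ s : Fin ρ.m → Prop,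
      (∀ p, ty 𝔹 (x p) = s) → ty 𝔹 (F x) = γ s) ∧
      ∀ x ∈ U, ∀ y ∈ U, ∀ s : Fin ρ.m → Prop,
        (∀ p, ty 𝔹 (x p) = s ∧ ty 𝔹 (y p) = s ∧ x p ≠ y p ∧ Rg 𝔸 𝔹 (x p) (y p)) → F x ≠ F y
  have hbad : ∀ U' : Finset (P → V), U ⊆ U' → ∃ F : (P → V) → V, LocP 𝔸 U' F ∧ ¬ Good F := by
    intro U' hU'
    obtain ⟨F, h1, h2⟩ := hcon U' hU'
    refine ⟨F, h1, fun hG => ?_⟩
    obtain ⟨x, hx, y, hy, s, h3, h4⟩ := h2 hG.1
    exact hG.2 x hx y hy s (fun p => h3 p) h4
  have hcP : Countable (P → V) := inferInstance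
  obtain ⟨f, -, hf⟩ := hcpt (P → V) ∅ (fun x => x (Classical.arbitrary P))
    (fun Y F => LocP 𝔸 Y F ∧ (U ⊆ Y → ¬ Good F))
    (fun Y => by
      obtain ⟨F, h1, h2⟩ := hbad (U ∪ Y) Finset.subset_union_left
      exact ⟨F, ⟨fun l z hz hA => h1 l z (fun i => Finset.mem_union_right _ (hz i)) hA,
        fun _ => h2⟩, fun x hx => absurd hx (Finset.notMem_empty x)⟩)
    (fun Y Y' F hY h => ⟨fun l z hz hA => h.1 l z (fun i => hY (hz i)) hA,
      fun hU => h.2 (hU.trans hY)⟩)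
    (fun Y F F' h hF => ⟨fun l z hz hA => tyi_on ht hF l z (fun i => hz i) (h.1 l z hz hA),
      fun hU hG => h.2 hU ⟨by
        obtain ⟨γ, hγ, h3⟩ := hG.1
        exact ⟨γ, hγ, fun x hx s hs => (tpo_ty hF (hU hx)).trans (h3 x hx s hs)⟩,
        fun x hx y hy s hs hxy => hG.2 x hx y hy s hs ((hF.1 x (hU hx) y (hU hy)).1 hxy)⟩⟩)
  have hpoly : IsPoly 𝔸 𝔸 f := by
    intro l x hx
    exact (hf (Finset.univ.image fun i => fun p => x p i)).1 l (fun i p => x p i)
      (fun i => Finset.mem_image_of_mem (fun i => fun p => x p i) (Finset.mem_univ i)) hx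
  refine (hf U).2 (Finset.Subset.refl U) ?_
  obtain ⟨γ, hγ, h1⟩ := hrig P f hpoly
  refine ⟨⟨γ, hγ, fun x _ s hs => h1 x s hs⟩, fun x _ y _ s hxy heq => ?_⟩
  obtain ⟨ν, hν1, hν2⟩ := hinv γ hγ
  have hkeep : ∀ (x : P → V) (s : Fin ρ.m → Prop), (∀ p, ty 𝔹 (x p) = s) →
      ty 𝔹 (ν (f x)) = s := fun x s hs =>
    hν2 (f x) s ⟨x (Classical.arbitrary P), hs _⟩ (h1 x s hs)
  refine hneq P (fun x => ν (f x)) (fun l x hx => hν1 l _ (hpoly l x hx)) hkeep s x y hxy ?_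
  show ν (f x) = ν (f y)
  rw [heq]

end Pool.Agent.H44.FB
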