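import Pool.Agent.H44.FB.Asm
import Pool.Agent.H44.FB.Small
import Pool.Agent.H44.FB.PRO
import Pool.Agent.H44.FB.RIG
import Pool.Agent.H44.FB.INJ
import Pool.Agent.H1.FB.RMU
import Pool.Agent.H35.FB.PPK
import Pool.Agent.H37.FB.CYG
import Pool.Agent.H37.FB.INS
import Pool.Agent.H54.FB.DUN
import Pool.Agent.H68.FB.MIN
import Pool.Agent.H70.FB.RGD
import Pool.Agent.H74.FB.NEQ
import Pool.Agent.H94.FB.CPT
import Pool.Agent.H94.FB.OLI
import Pool.Agent.H98.FB.GDG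

/-!
# The injective part for structures with local completions: the rigidity part
-/

set_option autoImplicit false

namespace Pool.Agent.H44.FB

theorem a_F1 : F1 where
  cpt := Pool.Agent.H94.FB.pf_CPT
  emb := pf_EMB
  oli := Pool.Agent.H94.FB.pf_OLI
  dun := Pool.Agent.H54.FB.pf_DUN
  rmu := Pool.Agent.H1.FB.pf_RMU
  cyg := Pool.Agent.H37.FB.pf_CYG
  ins := Pool.Agent.H37.FB.pf_INS
  glo := pf_GLO
  min := Pool.Agent.H68.FB.pf_MIN
  gdg := Pool.Agent.H98.FB.pf_GDG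
  tre := pf_TRE
  pro := pf_PRO
  rig := pf_RIG
  rgd := Pool.Agent.H70.FB.pf_RGD
  klc := pf_KLC
  inj := pf_INJ
  neq := Pool.Agent.H74.FB.pf_NEQ
  fin := pf_FIN
  ppk := Pool.Agent.H35.FB.pf_PPK

end Pool.Agent.H44.FB
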