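import Pool.Agent.H44.FB.Targets
import Pool.Agent.H53.GX.Asm
import Pool.Agent.H68.GC.OLF0

/-!
# The injective part for structures with local completions: assembly
-/

set_option autoImplicit false
set_option linter.unusedVariables false

namespace Pool.Agent.H44.FB

open Pool.Agent.H68.BP Pool.Agent.H58.SF Pool.Agent.H53.NR
open Pool.Agent.H53.GC (arP relP strOn sigOf Sym)
open Pool.Agent.H53.GR (Ps Dm)
open Pool.Agent.H53.GM (Connected Avoids Val Cols DmG)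
open Pool.Agent.H53.GX (FmX tmX)
open Pool.Agent.H57.AR (tp ty Ty)
open Pool.Agent.H57.EQ (Cx)
open Pool.Agent.H57.SO (fib sigF SF)
open Pool.Agent.H57.LH (SS vs c0 Blind NCB Cor Prs tfL SyL)
open Pool.Agent.H44.KR
open Function
open Classical

/-- the targets of the rigidity part -/
structure F1 : Prop where
  cpt : T_CPT
  emb : T_EMB
  oli : T_OLI
  dun : T_DUN
  rmu : T_RMU
  cyg : T_CYG
  ins : T_INS
  glo : T_GLO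
  min : T_MIN
  gdg : T_GDG
  tre : T_TRE
  pro : T_PRO
  rig : T_RIG
  rgd : T_RGD
  klc : T_KLC
  inj : T_INJ
  neq : T_NEQ
  fin : T_FIN
  ppk : T_PPK

/-- the targets of the coloured problem -/
structure F2 : Prop where
  alw : T_ALW
  lsb : T_LSB
  lst : T_LST
  tpe : T_TPE
  ept : T_EPT
  rpt : T_RPT

section

variable {V : Type} {σ ρ : Sig} {𝔸 : Str σ V} {𝔹 : Str ρ V}

/-- The structure of the fibres does not pp-construct `K₃`. -/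
theorem F1.main (h : F1) (hB : HB 𝔹) (hc : Countable V) (ht : Tyi 𝔸 𝔹) (hP : Prm 𝔸 𝔹)
    (hn : NCB 𝔸 𝔹) (hK : ¬ PPConstructsK3 𝔸) {N L : ℕ} (hN : LcN 𝔹 N) (hR : RmL 𝔹 L)
    (hZ : ZgzC 𝔹) (m : ℕ) : ¬ PPConstructsK3 (fbI 𝔸 𝔹 m (Bl 𝔸 𝔹)) := by
  have hcpt : CptC 𝔹 := h.cpt V ρ 𝔹 hB
  have hemb : EmbC 𝔹 := h.emb V ρ 𝔹 hB hc hcpt
  have hrmu : RmuC 𝔹 := h.rmu V ρ 𝔹 hB L hR (h.dun V ρ 𝔹 hB)
  have hcyg : CygC 𝔹 (N + 3) := h.cyg V ρ 𝔹 hB N hN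
  have hins : InsC 𝔸 𝔹 := h.ins V σ ρ 𝔸 𝔹 hP
  have hglo : GloC 𝔸 𝔹 := h.glo V σ ρ 𝔸 𝔹 hB hc ht hcpt
  have hinv : InvC 𝔸 𝔹 := by
    intro γ hγ
    obtain ⟨γ', hγ', h1⟩ := hins γ hγ
    obtain ⟨g, hg, h2⟩ := hglo γ' hγ'
    refine ⟨g, hg, fun v t ht hv => ?_⟩
    rw [h2, hv]
    exact (h1 t ht).1
  obtain ⟨X, w, hX⟩ := h.gdg V σ ρ 𝔸 𝔹 hB hins (h.min V σ ρ 𝔸 𝔹 hB hc ht hP hcpt hrmu)
  have hpro : ProC 𝔸 𝔹 := h.pro V σ ρ 𝔸 𝔹 hB ht N hcyg X w hX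
    (h.tre V ρ 𝔹 hB X w fun s hs => ⟨hX.mem s hs, hX.typ s hs⟩)
  have hrig : RigC 𝔸 𝔹 := h.rig V σ ρ 𝔸 𝔹 hB ht hrmu hpro
  have hinj : InjC 𝔸 𝔹 := h.inj V σ ρ 𝔸 𝔹 hc ht hrmu hemb
    (h.rgd V σ ρ 𝔸 𝔹 hB hc ht hcpt hemb) (h.klc V σ ρ 𝔸 𝔹) hZ
  have hneq : NeqC 𝔸 𝔹 := h.neq V σ ρ 𝔸 𝔹 ht hemb N hcyg
  exact h.ppk V σ ρ 𝔸 𝔹 hB ht (h.fin V σ ρ 𝔸 𝔹 hB hc ht hcpt hrig hneq hinv) hinj hinv hn hK m

theorem relP_tyi (ht : Tyi 𝔸 𝔹) (m : ℕ) : ∀ (l : Option (Fin σ.m)) (u v : Fin (arP σ m l) → V),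
    tp 𝔹 v = tp 𝔹 u → relP 𝔸 m l u → relP 𝔸 m l v
  | none, _, _, _, _ => trivial
  | some l, u, v, h, hu => ht l u v hu h

theorem tp_comp {W W' : Type} {u v : W → V} (h : tp 𝔹 v = tp 𝔹 u) (z : W' → W) :
    tp 𝔹 (fun a => v (z a)) = tp 𝔹 (fun a => u (z a)) := by
  refine Prod.ext ?_ ?_
  · funext a b
    exact congrFun (congrFun (congrArg Prod.fst h) (z a)) (z b)
  · funext l w
    exact congrFun (congrFun (congrArg Prod.snd h) l) (fun i => z (w i))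

/-- The relations of the fibres depend only on types. -/
theorem tyi_fbI (ht : Tyi 𝔸 𝔹) (m : ℕ) (B : Set (Fin ρ.m → Prop)) : Tyi (fbI 𝔸 𝔹 m B) 𝔹 := by
  intro i x y hx hxy
  obtain ⟨h1, h2, h3, h4⟩ := hx
  have heq : ∀ a b, y a = y b ↔ x a = x b := fun a b =>
    iff_of_eq (congrFun (congrFun (congrArg Prod.fst hxy) a) b)
  have hrel : ∀ (l : Fin ρ.m) (z : Fin (ρ.ar l) → Fin ((sigF (SS 𝔹) σ m).ar i)),
      𝔹 l (fun j => y (z j)) ↔ 𝔹 l (fun j => x (z j)) := fun l z =>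
    iff_of_eq (congrFun (congrFun (congrArg Prod.snd hxy) l) z)
  refine ⟨h1, fun a => ?_, fun a b hab => h3 a b ((heq a b).1 hab),
    relP_tyi ht m _ _ _ (tp_comp hxy _) h4⟩
  rw [← h2 a]
  funext l
  exact propext (hrel l (fun _ => a))

/-- the positions of tuples of length `0` -/
theorem ps_empty {m n : ℕ} (hn : n = 0) (p : Ps m n) : False := by
  subst hn
  exact (p.2 0).elim0

/-- The template of the fibres has an Olšák polymorphism. -/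
theorem fib_main (h : F1) (h2 : F2) (hOUX : Pool.Agent.H53.GX.T_OUX)
    (hALG : Pool.Agent.H53.GX.T_ALG) (hLIM : Pool.Agent.H53.GX.T_LIMX)
    (hPAD : Pool.Agent.H53.GM.T_PAD) (hB : HB 𝔹) (hc : Countable V) (ht : Tyi 𝔸 𝔹)
    (hP : Prm 𝔸 𝔹) (hn : NCB 𝔸 𝔹) (hK : ¬ PPConstructsK3 𝔸) {N L : ℕ} (hN : LcN 𝔹 N)
    (hR : RmL 𝔹 L) (hZ : ZgzC 𝔹) (m : ℕ) (hm : 1 ≤ m) :
    HasOlsak (tfL 𝔸 𝔹 m (c0 𝔹)) (tfL 𝔸 𝔹 m (c0 𝔹)) := by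
  have hne : Nonempty V := hB.ne
  have hK' := h.main hB hc ht hP hn hK hN hR hZ m
  have hol : Oligo (fbI 𝔸 𝔹 m (Bl 𝔸 𝔹)) := h.oli V _ ρ _ 𝔹 hB hc (tyi_fbI ht m _)
  have halw := h2.alw V σ ρ 𝔸 𝔹 hB ht m
  obtain ⟨N₁, hN₁⟩ := h2.lsb V σ ρ 𝔹 hB m (Bl 𝔸 𝔹)
  obtain ⟨Ls, hLs1, hLs2⟩ := h2.lst V σ ρ 𝔹 m (Bl 𝔸 𝔹) N₁ hN₁
  have htpe := h2.tpe V σ ρ 𝔸 𝔹 m halw Ls hLs2
  have har : ∀ c, 1 ≤ (sigC 𝔹 σ m).ar c := fun c => (co 𝔹 σ m c).2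
  obtain ⟨K, F, hF, hval, hT⟩ := hPAD (sigC 𝔹 σ m) (sigF (SS 𝔹) σ m) (alI 𝔸 𝔹 m (Bl 𝔸 𝔹)) Ls V
    (fbI 𝔸 𝔹 m (Bl 𝔸 𝔹)) hne har hLs1 htpe
  have hval' : ∀ (W : Type) [Finite W] [Nonempty W] (M : Str (sigC 𝔹 σ m) W),
      Val F M ↔ ∃ f : W → V, IsHom M (NC 𝔹 σ m (Bl 𝔸 𝔹)) f := fun W _ hW M =>
    (hval W M hW).trans (hLs2 W M)
  have hmK : m ≤ K := by
    obtain ⟨v⟩ := hne
    let q₀ : SF (SS 𝔹) σ m := ⟨none, ⟨m, Nat.lt_succ_self m⟩, id, fun _ => vs 𝔹 v⟩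
    have h3 : ((sigF (SS 𝔹) σ m).ar (Finite.equivFin (SF (SS 𝔹) σ m) q₀)) = m := by
      show (((Finite.equivFin (SF (SS 𝔹) σ m)).symm
        (Finite.equivFin (SF (SS 𝔹) σ m) q₀)).2.1 : ℕ) = m
      rw [Equiv.symm_apply_apply]
    let c₀ : CI 𝔹 σ m := ⟨⟨Finite.equivFin (SF (SS 𝔹) σ m) q₀, fun _ _ => True⟩, by
      show 1 ≤ (sigF (SS 𝔹) σ m).ar (Finite.equivFin (SF (SS 𝔹) σ m) q₀)
      rw [h3]
      exact hm⟩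
    have h4 := (hF.ar (Finite.equivFin (CI 𝔹 σ m) c₀)).2
    have h5 : (sigC 𝔹 σ m).ar (Finite.equivFin (CI 𝔹 σ m) c₀) = m := by
      show (sigF (SS 𝔹) σ m).ar ((Finite.equivFin (CI 𝔹 σ m)).symm
        (Finite.equivFin (CI 𝔹 σ m) c₀)).1.1 = m
      rw [Equiv.symm_apply_apply]
      exact h3
    rw [h5] at h4
    exact h4
  obtain ⟨E, hE⟩ := h2.ept V σ ρ 𝔸 𝔹 hB (h.emb V ρ 𝔹 hB hc (h.cpt V ρ 𝔹 hB)) m K hmK F hval'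
  obtain ⟨R, hRR⟩ := h2.rpt V σ ρ 𝔸 𝔹 hB m K hm hmK (fun c => (hF.ar c).2) F halw hval'
  obtain ⟨o, ho, hoo⟩ : HasOlsak (tmX F (alI 𝔸 𝔹 m (Bl 𝔸 𝔹))) (tmX F (alI 𝔸 𝔹 m (Bl 𝔸 𝔹))) :=
    hLIM _ _ K F _ hF fun k hk => hALG _ _ K F _ hF k hk fun I a₀ ha₀ =>
      hOUX _ _ K F _ V _ hc hne hol hK' hF hT k hk I a₀ ha₀
  have hpoly := (Pool.Agent.H68.GC.poly_strOn _ _ _).1 ho
  refine ⟨fun d => R (o fun c => E (d c)), ?_, fun x y => ?_⟩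
  · refine (Pool.Agent.H68.GC.poly_strOn _ _ _).2 ?_
    intro s q hq
    have hq' : ∀ c, FmI 𝔸 𝔹 m s (q c) := hq
    show FmI 𝔸 𝔹 m s fun p => R (o fun c => E (q c p))
    rcases Nat.eq_zero_or_pos ((sigF (SS 𝔹) σ m).ar s.1) with h0 | h0
    · have h3 : (fun p => R (o fun c => E (q c p))) = q 0 := by
        funext p
        exact (ps_empty h0 p).elim
      rw [h3]
      exact hq' 0
    · have hinj : Injective s.2 := by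
        obtain ⟨x, hx1, hx2, -⟩ := hq' 0
        intro a b hab
        exact hx1.1 (hx2 a b hab)
      choose Q hQ1 hQ2 using fun c => hE s (q c) h0 (hq' c)
      have h4 := hpoly ⟨some s.1, s.2⟩ Q hQ1
      obtain ⟨q', ⟨x, hx1, hx2, hx3⟩, hq2⟩ := hRR s (fun p => o fun c => Q c p) hinj h4
      refine ⟨x, hx1, hx2, fun j α hα => ?_⟩
      rw [← hx3 j α hα, hq2 j α hα]
      have h7 : (fun c => E (q c ⟨j, α⟩)) = fun c => Q c ⟨⟨j, lt_of_lt_of_le j.2 hmK⟩, α⟩ :=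
        funext fun c => (hQ2 c j α hα).symm
      exact congrArg (fun u => R (o u)) h7
  · have h5 := hoo (E x) (E y)
    have h6 : ∀ a b c d e f : Dm ρ m, (fun i => E ((![a, b, c, d, e, f] : Fin 6 → Dm ρ m) i)) =
        ![E a, E b, E c, E d, E e, E f] := by
      intro a b c d e f
      funext i
      fin_cases i <;> rfl
    constructor
    · show R (o fun i => E _) = R (o fun i => E _)
      rw [h6, h6, h5.1]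
    · show R (o fun i => E _) = R (o fun i => E _)
      rw [h6, h6, h5.2]

end

end Pool.Agent.H44.FB
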