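import Pool.Agent.H44.KR.Targets
import Pool.Agent.H53.GX.Targets
import Pool.Agent.H57.LH.Defs

/-!
# The injective part for structures with local completions: definitions
-/

set_option autoImplicit false
set_option linter.unusedVariables false

namespace Pool.Agent.H44.FB

open Pool.Agent.H68.BP Pool.Agent.H58.SF Pool.Agent.H53.NR
open Pool.Agent.H53.GC (arP relP strOn sigOf)
open Pool.Agent.H53.GR (Ps Dm)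
open Pool.Agent.H57.AR (tp ty Ty)
open Pool.Agent.H57.EQ (Cx)
open Pool.Agent.H57.SO (fib sigF SF)
open Pool.Agent.H57.LH (SS vs c0 Blind NCB Cor Prs tfL SyL)
open Pool.Agent.H44.KR
open Function
open Classical

/-! ### Local maps and endomorphisms -/

section basic

variable {V P : Type} {ρ σ : Sig}

/-- `ψ` preserves the relations of `𝔸` on the set `X`. -/
def Loc (𝔸 : Str σ V) (X : Finset V) (ψ : V → V) : Prop :=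
  ∀ (l : Fin σ.m) (z : Fin (σ.ar l) → V), (∀ i, z i ∈ X) → 𝔸 l z → 𝔸 l (fun i => ψ (z i))

/-- `F` preserves the relations of `𝔸` on the subset `U` of the power. -/
def LocP (𝔸 : Str σ V) (U : Finset (P → V)) (F : (P → V) → V) : Prop :=
  ∀ (l : Fin σ.m) (z : Fin (σ.ar l) → P → V), (∀ i, z i ∈ U) → (∀ p, 𝔸 l (fun i => z i p)) →
    𝔸 l (fun i => F (z i))

/-- endomorphisms of `𝔸` which preserve the types of elements of `𝔹` -/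
def En (𝔸 : Str σ V) (𝔹 : Str ρ V) (g : V → V) : Prop :=
  IsHom 𝔸 𝔸 g ∧ ∀ v, ty 𝔹 (g v) = ty 𝔹 v

/-- The pair `(x, y)` is rigid: it comes back after each endomorphism. -/
def Rg (𝔸 : Str σ V) (𝔹 : Str ρ V) (x y : V) : Prop :=
  ∀ g, En 𝔸 𝔹 g → ∃ g', En 𝔸 𝔹 g' ∧ g' (g x) = x ∧ g' (g y) = y

end basic

/-! ### Properties -/

section props

variable {V : Type} {ρ σ : Sig}

/-- compactness -/
def CptC (𝔹 : Str ρ V) : Prop :=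
  ∀ (X : Type) [Countable X] (U : Finset X) (g₀ : X → V) (S : Finset X → (X → V) → Prop),
    (∀ Y, ∃ F, S Y F ∧ ∀ x ∈ U, F x = g₀ x) →
    (∀ Y Y' F, Y' ⊆ Y → S Y F → S Y' F) →
    (∀ Y F F', S Y F → TpOn 𝔹 (Y : Set X) F F' → S Y F') →
    ∃ f : X → V, (∀ x ∈ U, f x = g₀ x) ∧ ∀ Y, S Y f

/-- extension of partial isomorphisms to embeddings -/
def EmbC (𝔹 : Str ρ V) : Prop :=
  ∀ (W : Type) [Finite W] (x y : W → V), tp 𝔹 x = tp 𝔹 y →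
    ∃ g : V → V, (∀ (J : Type) (a : J → V), tp 𝔹 (fun j => g (a j)) = tp 𝔹 a) ∧
      ∀ w, g (x w) = y w

/-- disjoint copies -/
def DunC (𝔹 : Str ρ V) : Prop :=
  ∀ (I : Type) [Finite I] (X : I → Type) [∀ i, Finite (X i)] (G : (i : I) → X i → V),
    (∀ i, Injective (G i)) → ∃ G' : (Σ i, X i) → V, Injective G' ∧
      ∀ i, tp 𝔹 (fun x => G' ⟨i, x⟩) = tp 𝔹 (G i)

/-- uniform Ramsey property: the colour of a tuple in a copy depends only on its type and order -/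
def RmuC (𝔹 : Str ρ V) : Prop :=
  ∀ (J Y : Type) [Finite J] [Nonempty J] [Finite Y] (χ : (J → V) → Y),
    ∃ c : Ty ρ J × (J → J → Prop) → Y, ∀ (X : Type) [Finite X] (G : X → V) (rk : X → ℕ),
      Injective G → Injective rk → ∃ G' : X → V, tp 𝔹 G' = tp 𝔹 G ∧
        ∀ a : J → X, χ (fun j => G' (a j)) =
          c (tp 𝔹 (fun j => G (a j)), fun i j => rk (a i) < rk (a j))

/-- cycles of cliques -/
def CygC (𝔹 : Str ρ V) (n : ℕ) : Prop :=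
  ∀ (W : Type) [Finite W] (lv : W → ZMod n) (m : ZMod n → W → V),
    (∀ a, Set.InjOn (m a) {x | lv x = a ∨ lv x = a + 1}) →
    (∀ a, TpOn 𝔹 {x | lv x = a + 1} (m a) (m (a + 1))) →
    ∃ f : W → V, ∀ a, TpOn 𝔹 {x | lv x = a ∨ lv x = a + 1} (m a) f

/-- inverse actions -/
def InsC (𝔸 : Str σ V) (𝔹 : Str ρ V) : Prop :=
  ∀ γ, Sb 𝔸 𝔹 γ → ∃ γ', Sb 𝔸 𝔹 γ' ∧ ∀ s ∈ Rlz 𝔹, γ' (γ s) = s ∧ γ (γ' s) = s

/-- actions are actions of endomorphisms -/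
def GloC (𝔸 : Str σ V) (𝔹 : Str ρ V) : Prop :=
  ∀ γ, Sb 𝔸 𝔹 γ → ∃ g : V → V, IsHom 𝔸 𝔸 g ∧ ∀ v, ty 𝔹 (g v) = γ (ty 𝔹 v)

/-- endomorphisms with the inverse actions -/
def InvC (𝔸 : Str σ V) (𝔹 : Str ρ V) : Prop :=
  ∀ γ, Sb 𝔸 𝔹 γ → ∃ g : V → V, IsHom 𝔸 𝔸 g ∧ ∀ v, ∀ t ∈ Rlz 𝔹, ty 𝔹 v = γ t → ty 𝔹 (g v) = t

/-- If all pairs of elements of type `s` can be identified by endomorphisms, then `s` is
collapsible. -/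
def KlcC (𝔸 : Str σ V) (𝔹 : Str ρ V) : Prop :=
  ∀ s : Fin ρ.m → Prop, (∀ x y, ty 𝔹 x = s → ty 𝔹 y = s → ∃ g, En 𝔸 𝔹 g ∧ g x = g y) →
    Clp 𝔸 𝔹 s

/-- zigzag paths of elements of one type -/
def ZgzC (𝔹 : Str ρ V) : Prop :=
  ∃ m : ℕ, 1 ≤ m ∧ ∀ p q : Fin 2 → V, p 0 ≠ p 1 → q 0 ≠ q 1 → ty 𝔹 (p 1) = ty 𝔹 (p 0) →
    ty 𝔹 (q 0) = ty 𝔹 (p 0) → ty 𝔹 (q 1) = ty 𝔹 (p 0) →
    ∃ f : Fin (2 * m + 2) → V, Injective f ∧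
      (∀ i i' : Fin (2 * m + 2), (i' : ℕ) = i + 1 →
        ((i : ℕ) % 2 = 0 → tp 𝔹 ![f i, f i'] = tp 𝔹 p) ∧
        ((i : ℕ) % 2 = 1 → tp 𝔹 ![f i', f i] = tp 𝔹 p)) ∧
      tp 𝔹 ![f 0, f (Fin.last (2 * m + 1))] = tp 𝔹 q

/-- No type of elements can be avoided. -/
def MinC (𝔸 : Str σ V) (𝔹 : Str ρ V) : Prop :=
  ∀ s ∈ Rlz 𝔹, ∃ W : Finset V, ∀ ψ, Loc 𝔸 W ψ → ∃ w ∈ W, ty 𝔹 (ψ w) = s

/-- `w s` is an element of type `s` of the set `X`, whose type is preserved by a local map if the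
types of the other elements are. -/
structure Gdg (𝔸 : Str σ V) (𝔹 : Str ρ V) (X : Finset V) (w : (Fin ρ.m → Prop) → V) :
    Prop where
  mem : ∀ s ∈ Rlz 𝔹, w s ∈ X
  typ : ∀ s ∈ Rlz 𝔹, ty 𝔹 (w s) = s
  rt : ∀ s ∈ Rlz 𝔹, ∀ γ, Sb 𝔸 𝔹 γ → ∀ ψ : V → V, Loc 𝔸 X ψ →
    (∀ x ∈ X, x ≠ w s → ty 𝔹 (ψ x) = γ (ty 𝔹 x)) → ty 𝔹 (ψ (w s)) = γ s

/-- levels of copies of `X` -/
structure Lvl (𝔹 : Str ρ V) (X : Finset V) (w : (Fin ρ.m → Prop) → V) (L : ℕ → Finset V) :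
    Prop where
  dis : ∀ k, Disjoint (L k) (L (k + 1))
  cpy : ∀ k, ∀ u ∈ L k, ∃ j : V → V, TpOn 𝔹 (X : Set V) id j ∧ j (w (ty 𝔹 u)) = u ∧
    ∀ x ∈ X, x ≠ w (ty 𝔹 u) → j x ∈ L (k + 1)

/-- propagation of types -/
def ProC (𝔸 : Str σ V) (𝔹 : Str ρ V) : Prop :=
  ∀ v : V, ∃ F : Finset V, ∀ (P : Type) [Finite P] [Nonempty P] (f : (P → V) → V),
    IsPoly 𝔸 𝔸 f → ∀ γ, Sb 𝔸 𝔹 γ → ∀ x : P → V, (∀ p, ty 𝔹 (x p) = ty 𝔹 v) →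
    ∀ y : V → V, TpOn 𝔹 (F : Set V) id y → (∀ p, ∀ u ∈ F, y u ≠ x p) →
    (∀ u ∈ F, ty 𝔹 (f (fun _ => y u)) = γ (ty 𝔹 u)) → ty 𝔹 (f x) = γ (ty 𝔹 v)

/-- types of values of polymorphisms -/
def RigC (𝔸 : Str σ V) (𝔹 : Str ρ V) : Prop :=
  ∀ (P : Type) [Finite P] [Nonempty P] (f : (P → V) → V), IsPoly 𝔸 𝔸 f →
    ∃ γ, Sb 𝔸 𝔹 γ ∧ ∀ (x : P → V) (s : Fin ρ.m → Prop), (∀ p, ty 𝔹 (x p) = s) →
      ty 𝔹 (f x) = γ s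

/-- an endomorphism with rigid images of all pairs -/
def RgdC (𝔸 : Str σ V) (𝔹 : Str ρ V) : Prop :=
  ∃ e : V → V, En 𝔸 𝔹 e ∧ ∀ x y, Rg 𝔸 𝔹 (e x) (e y)

/-- injective local maps with rigid images of all pairs -/
def InjC (𝔸 : Str σ V) (𝔹 : Str ρ V) : Prop :=
  ∀ X : Finset V, ∃ e : V → V, Loc 𝔸 X e ∧ (∀ x ∈ X, ty 𝔹 (e x) = ty 𝔹 x) ∧
    ∀ x ∈ X, ∀ y ∈ X, ty 𝔹 x = ty 𝔹 y → ¬ Clp 𝔸 𝔹 (ty 𝔹 x) → x ≠ y →
      e x ≠ e y ∧ Rg 𝔸 𝔹 (e x) (e y)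

/-- Polymorphisms do not identify tuples whose entries are rigid pairs. -/
def NeqC (𝔸 : Str σ V) (𝔹 : Str ρ V) : Prop :=
  ∀ (P : Type) [Finite P] [Nonempty P] (f : (P → V) → V), IsPoly 𝔸 𝔸 f →
    (∀ (x : P → V) (s : Fin ρ.m → Prop), (∀ p, ty 𝔹 (x p) = s) → ty 𝔹 (f x) = s) →
    ∀ (s : Fin ρ.m → Prop) (x y : P → V),
      (∀ p, ty 𝔹 (x p) = s ∧ ty 𝔹 (y p) = s ∧ x p ≠ y p ∧ Rg 𝔸 𝔹 (x p) (y p)) → f x ≠ f y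

/-- the finite form of `RigC` and `NeqC` -/
def FinC (𝔸 : Str σ V) (𝔹 : Str ρ V) : Prop :=
  ∀ (P : Type) [Finite P] [Nonempty P] (U : Finset (P → V)), ∃ U' : Finset (P → V), U ⊆ U' ∧
    ∀ F : (P → V) → V, LocP 𝔸 U' F → (∃ γ, Sb 𝔸 𝔹 γ ∧ ∀ x ∈ U, ∀ s : Fin ρ.m → Prop,
      (∀ p, ty 𝔹 (x p) = s) → ty 𝔹 (F x) = γ s) ∧
      ∀ x ∈ U, ∀ y ∈ U, ∀ s : Fin ρ.m → Prop,
        (∀ p, ty 𝔹 (x p) = s ∧ ty 𝔹 (y p) = s ∧ x p ≠ y p ∧ Rg 𝔸 𝔹 (x p) (y p)) → F x ≠ F y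

end props

/-! ### The fibres -/

section fibres

variable {V : Type} {ρ σ : Sig}

/-- the blind types -/
def Bl (𝔸 : Str σ V) (𝔹 : Str ρ V) : Set (Fin ρ.m → Prop) := {s | Blind 𝔸 𝔹 s}

/-- the symbol with the number `i` -/
noncomputable def sy (𝔹 : Str ρ V) (σ : Sig) (m : ℕ) (i : Fin (sigF (SS 𝔹) σ m).m) :
    SF (SS 𝔹) σ m := (Finite.equivFin (SF (SS 𝔹) σ m)).symm i

/-- the types of the places of the symbol `i` -/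
noncomputable def tyI (𝔹 : Str ρ V) (σ : Sig) (m : ℕ) (i : Fin (sigF (SS 𝔹) σ m).m) :
    Fin ((sigF (SS 𝔹) σ m).ar i) → Fin ρ.m → Prop := fun a => ((sy 𝔹 σ m i).2.2.2 a : _)

/-- The structure of the fibres: tuples in the relations with given types of elements, which are
injective except for the elements with types in `B`. -/
noncomputable def fbI (𝔸 : Str σ V) (𝔹 : Str ρ V) (m : ℕ) (B : Set (Fin ρ.m → Prop)) :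
    Str (sigF (SS 𝔹) σ m) V :=
  fun i y => 1 ≤ (sigF (SS 𝔹) σ m).ar i ∧ (∀ a, ty 𝔹 (y a) = tyI 𝔹 σ m i a) ∧
    (∀ a b, y a = y b → a = b ∨ tyI 𝔹 σ m i a ∈ B) ∧
    relP 𝔸 m (sy 𝔹 σ m i).1 (fun a => y ((sy 𝔹 σ m i).2.2.1 a))

/-- The relations of the template of the fibres. -/
def FmI (𝔸 : Str σ V) (𝔹 : Str ρ V) (m : ℕ) (s : SyL (SS 𝔹) σ m)
    (q : Ps m ((sigF (SS 𝔹) σ m).ar s.1) → Dm ρ m) : Prop :=
  ∃ x : Fin ((sigF (SS 𝔹) σ m).ar s.1) → V, fib 𝔸 m (c0 𝔹) s.1 x ∧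
    (∀ a b, s.2 a = s.2 b → x a = x b) ∧
    ∀ (j : Fin m) (α : Fin (j + 1) → Fin ((sigF (SS 𝔹) σ m).ar s.1)),
      StrictMono (fun i => s.2 (α i)) → q ⟨j, α⟩ = ⟨j, pull 𝔹 (fun i => x (α i))⟩

/-! ### Colours -/

/-- the colours of the fibres: a symbol and a structure on its places -/
abbrev CI (𝔹 : Str ρ V) (σ : Sig) (m : ℕ) : Type :=
  {c : (Σ i : Fin (sigF (SS 𝔹) σ m).m, Str ρ (Fin ((sigF (SS 𝔹) σ m).ar i))) //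
    1 ≤ (sigF (SS 𝔹) σ m).ar c.1}

instance str_finite (a : ℕ) : Finite (Str ρ (Fin a)) := by
  unfold Str
  infer_instance

instance ci_finite (𝔹 : Str ρ V) (m : ℕ) : Finite (CI 𝔹 σ m) := inferInstance

/-- the colour with the number `c` -/
noncomputable def co (𝔹 : Str ρ V) (σ : Sig) (m : ℕ) (c : Fin (Nat.card (CI 𝔹 σ m))) :
    CI 𝔹 σ m := (Finite.equivFin (CI 𝔹 σ m)).symm c

/-- the signature of the colours -/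
noncomputable def sigC (𝔹 : Str ρ V) (σ : Sig) (m : ℕ) : Sig :=
  ⟨Nat.card (CI 𝔹 σ m), fun c => (sigF (SS 𝔹) σ m).ar (co 𝔹 σ m c).1.1⟩

/-- the colours of the tuples in `V` -/
noncomputable def NC (𝔹 : Str ρ V) (σ : Sig) (m : ℕ) (B : Set (Fin ρ.m → Prop)) :
    Str (sigC 𝔹 σ m) V :=
  fun c x => (∀ a, ty 𝔹 (x a) = tyI 𝔹 σ m (co 𝔹 σ m c).1.1 a) ∧
    (∀ a b, x a = x b → a = b ∨ tyI 𝔹 σ m (co 𝔹 σ m c).1.1 a ∈ B) ∧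
    ∀ (l : Fin ρ.m) (z : Fin (ρ.ar l) → Fin ((sigF (SS 𝔹) σ m).ar (co 𝔹 σ m c).1.1)),
      (∀ i, tyI 𝔹 σ m (co 𝔹 σ m c).1.1 (z i) ∉ B) →
        (𝔹 l (fun i => x (z i)) ↔ (co 𝔹 σ m c).1.2 l z)

/-- the allowed colours -/
def alI (𝔸 : Str σ V) (𝔹 : Str ρ V) (m : ℕ) (B : Set (Fin ρ.m → Prop))
    (i : Fin (sigF (SS 𝔹) σ m).m) (c : Fin (sigC 𝔹 σ m).m) : Prop :=
  (co 𝔹 σ m c).1.1 = i ∧ ∃ x : Fin ((sigF (SS 𝔹) σ m).ar (co 𝔹 σ m c).1.1) → V,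
    fbI 𝔸 𝔹 m B (co 𝔹 σ m c).1.1 x ∧ NC 𝔹 σ m B c x

end fibres

end Pool.Agent.H44.FB
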