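import Pool.Agent.H44.FB.Defs

/-!
# The injective part for structures with local completions: targets
-/

set_option autoImplicit false
set_option linter.unusedVariables false

namespace Pool.Agent.H44.FB

open Pool.Agent.H68.BP Pool.Agent.H58.SF Pool.Agent.H53.NR
open Pool.Agent.H53.GC (arP relP strOn sigOf)
open Pool.Agent.H53.GR (Ps Dm)
open Pool.Agent.H53.GM (Connected Avoids Val Cols DmG)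
open Pool.Agent.H53.GX (FmX)
open Pool.Agent.H57.AR (tp ty Ty)
open Pool.Agent.H57.EQ (Cx)
open Pool.Agent.H57.SO (fib sigF SF)
open Pool.Agent.H57.LH (SS vs c0 Blind NCB Cor Prs tfL SyL)
open Pool.Agent.H44.KR
open Function
open Classical

/-! ### Part 1: compactness, copies and actions -/

/-- compactness -/
def T_CPT : Prop := ∀ (V : Type) (ρ : Sig) (𝔹 : Str ρ V), HB 𝔹 → CptC 𝔹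

/-- embeddings -/
def T_EMB : Prop :=
  ∀ (V : Type) (ρ : Sig) (𝔹 : Str ρ V), HB 𝔹 → Countable V → CptC 𝔹 → EmbC 𝔹

/-- oligomorphic automorphism groups -/
def T_OLI : Prop :=
  ∀ (V : Type) (σ ρ : Sig) (𝔸 : Str σ V) (𝔹 : Str ρ V), HB 𝔹 → Countable V → Tyi 𝔸 𝔹 → Oligo 𝔸

/-- disjoint copies -/
def T_DUN : Prop := ∀ (V : Type) (ρ : Sig) (𝔹 : Str ρ V), HB 𝔹 → DunC 𝔹

/-- the uniform Ramsey property -/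
def T_RMU : Prop :=
  ∀ (V : Type) (ρ : Sig) (𝔹 : Str ρ V), HB 𝔹 → ∀ L : ℕ, RmL 𝔹 L → DunC 𝔹 → RmuC 𝔹

/-- cycles of cliques -/
def T_CYG : Prop :=
  ∀ (V : Type) (ρ : Sig) (𝔹 : Str ρ V), HB 𝔹 → ∀ N : ℕ, LcN 𝔹 N → CygC 𝔹 (N + 3)

/-- inverse actions -/
def T_INS : Prop :=
  ∀ (V : Type) (σ ρ : Sig) (𝔸 : Str σ V) (𝔹 : Str ρ V), Prm 𝔸 𝔹 → InsC 𝔸 𝔹

/-- actions of endomorphisms -/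
def T_GLO : Prop :=
  ∀ (V : Type) (σ ρ : Sig) (𝔸 : Str σ V) (𝔹 : Str ρ V), HB 𝔹 → Countable V → Tyi 𝔸 𝔹 →
    CptC 𝔹 → GloC 𝔸 𝔹

/-! ### Part 2: types of values -/

/-- No type can be avoided. -/
def T_MIN : Prop :=
  ∀ (V : Type) (σ ρ : Sig) (𝔸 : Str σ V) (𝔹 : Str ρ V), HB 𝔹 → Countable V → Tyi 𝔸 𝔹 →
    Prm 𝔸 𝔹 → CptC 𝔹 → RmuC 𝔹 → MinC 𝔸 𝔹

/-- gadgets -/
def T_GDG : Prop :=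
  ∀ (V : Type) (σ ρ : Sig) (𝔸 : Str σ V) (𝔹 : Str ρ V), HB 𝔹 → InsC 𝔸 𝔹 → MinC 𝔸 𝔹 →
    ∃ X w, Gdg 𝔸 𝔹 X w

/-- levels of copies -/
def T_TRE : Prop :=
  ∀ (V : Type) (ρ : Sig) (𝔹 : Str ρ V), HB 𝔹 → ∀ (X : Finset V) (w : (Fin ρ.m → Prop) → V),
    (∀ s ∈ Rlz 𝔹, w s ∈ X ∧ ty 𝔹 (w s) = s) → ∀ v : V, ∃ L : ℕ → Finset V, L 0 = {v} ∧
      Lvl 𝔹 X w L

/-- propagation of types -/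
def T_PRO : Prop :=
  ∀ (V : Type) (σ ρ : Sig) (𝔸 : Str σ V) (𝔹 : Str ρ V), HB 𝔹 → Tyi 𝔸 𝔹 → ∀ N : ℕ,
    CygC 𝔹 (N + 3) → ∀ (X : Finset V) (w : (Fin ρ.m → Prop) → V), Gdg 𝔸 𝔹 X w →
    (∀ v : V, ∃ L : ℕ → Finset V, L 0 = {v} ∧ Lvl 𝔹 X w L) → ProC 𝔸 𝔹

/-- types of values of polymorphisms -/
def T_RIG : Prop :=
  ∀ (V : Type) (σ ρ : Sig) (𝔸 : Str σ V) (𝔹 : Str ρ V), HB 𝔹 → Tyi 𝔸 𝔹 → RmuC 𝔹 →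
    ProC 𝔸 𝔹 → RigC 𝔸 𝔹

/-! ### Part 3: injectivity -/

/-- rigid images -/
def T_RGD : Prop :=
  ∀ (V : Type) (σ ρ : Sig) (𝔸 : Str σ V) (𝔹 : Str ρ V), HB 𝔹 → Countable V → Tyi 𝔸 𝔹 →
    CptC 𝔹 → EmbC 𝔹 → RgdC 𝔸 𝔹

/-- collapse by steps -/
def T_KLC : Prop :=
  ∀ (V : Type) (σ ρ : Sig) (𝔸 : Str σ V) (𝔹 : Str ρ V), KlcC 𝔸 𝔹

/-- injective maps with rigid images -/
def T_INJ : Prop :=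
  ∀ (V : Type) (σ ρ : Sig) (𝔸 : Str σ V) (𝔹 : Str ρ V), Countable V → Tyi 𝔸 𝔹 → RmuC 𝔹 →
    EmbC 𝔹 → RgdC 𝔸 𝔹 → KlcC 𝔸 𝔹 → ZgzC 𝔹 → InjC 𝔸 𝔹

/-- different values -/
def T_NEQ : Prop :=
  ∀ (V : Type) (σ ρ : Sig) (𝔸 : Str σ V) (𝔹 : Str ρ V), Tyi 𝔸 𝔹 → EmbC 𝔹 → ∀ N : ℕ,
    CygC 𝔹 (N + 3) → NeqC 𝔸 𝔹

/-- the finite form -/
def T_FIN : Prop :=
  ∀ (V : Type) (σ ρ : Sig) (𝔸 : Str σ V) (𝔹 : Str ρ V), HB 𝔹 → Countable V → Tyi 𝔸 𝔹 →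
    CptC 𝔹 → RigC 𝔸 𝔹 → NeqC 𝔸 𝔹 → InvC 𝔸 𝔹 → FinC 𝔸 𝔹

/-- The structure of the fibres does not pp-construct `K₃`. -/
def T_PPK : Prop :=
  ∀ (V : Type) (σ ρ : Sig) (𝔸 : Str σ V) (𝔹 : Str ρ V), HB 𝔹 → Tyi 𝔸 𝔹 → FinC 𝔸 𝔹 →
    InjC 𝔸 𝔹 → InvC 𝔸 𝔹 → NCB 𝔸 𝔹 → ¬ PPConstructsK3 𝔸 → ∀ m : ℕ,
    ¬ PPConstructsK3 (fbI 𝔸 𝔹 m (Bl 𝔸 𝔹))

/-! ### Part 4: the fibres as a problem with forbidden coloured patterns -/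

/-- Allowed colours force the relations. -/
def T_ALW : Prop :=
  ∀ (V : Type) (σ ρ : Sig) (𝔸 : Str σ V) (𝔹 : Str ρ V), HB 𝔹 → Tyi 𝔸 𝔹 → ∀ (m : ℕ)
    (c : Fin (sigC 𝔹 σ m).m) (x y : Fin ((sigC 𝔹 σ m).ar c) → V),
    fbI 𝔸 𝔹 m (Bl 𝔸 𝔹) (co 𝔹 σ m c).1.1 x → NC 𝔹 σ m (Bl 𝔸 𝔹) c x →
    NC 𝔹 σ m (Bl 𝔸 𝔹) c y → fbI 𝔸 𝔹 m (Bl 𝔸 𝔹) (co 𝔹 σ m c).1.1 y

/-- Realizability is local. -/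
def LsbC {V : Type} {ρ : Sig} (𝔹 : Str ρ V) (σ : Sig) (m : ℕ) (B : Set (Fin ρ.m → Prop))
    (N : ℕ) : Prop :=
  ∀ (n : ℕ) (M : Str (sigC 𝔹 σ m) (Fin n)),
    (∀ U : Finset (Fin n), U.card ≤ N → ∃ f : Fin n → V,
      ∀ (c : Fin (sigC 𝔹 σ m).m) (x : Fin ((sigC 𝔹 σ m).ar c) → Fin n), M c x →
        (∀ a, x a ∈ U) → NC 𝔹 σ m B c (fun a => f (x a))) →
    ∃ f : Fin n → V, IsHom M (NC 𝔹 σ m B) f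

def T_LSB : Prop :=
  ∀ (V : Type) (σ ρ : Sig) (𝔹 : Str ρ V), HB 𝔹 → ∀ (m : ℕ) (B : Set (Fin ρ.m → Prop)),
    ∃ N : ℕ, LsbC 𝔹 σ m B N

/-- the list of the connected structures which are not realized -/
def T_LST : Prop :=
  ∀ (V : Type) [Nonempty V] (σ ρ : Sig) (𝔹 : Str ρ V) (m : ℕ) (B : Set (Fin ρ.m → Prop))
    (N : ℕ), LsbC 𝔹 σ m B N → ∃ L : List (Σ n : ℕ, Str (sigC 𝔹 σ m) (Fin n)),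
      (∀ D ∈ L, Connected D.2) ∧ ∀ (W : Type) [Finite W] (M : Str (sigC 𝔹 σ m) W),
        Avoids L M ↔ ∃ f : W → V, IsHom M (NC 𝔹 σ m B) f

/-- the coloured problem -/
def T_TPE : Prop :=
  ∀ (V : Type) (σ ρ : Sig) (𝔸 : Str σ V) (𝔹 : Str ρ V) (m : ℕ),
    (∀ (c : Fin (sigC 𝔹 σ m).m) (x y : Fin ((sigC 𝔹 σ m).ar c) → V),
      fbI 𝔸 𝔹 m (Bl 𝔸 𝔹) (co 𝔹 σ m c).1.1 x → NC 𝔹 σ m (Bl 𝔸 𝔹) c x →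
      NC 𝔹 σ m (Bl 𝔸 𝔹) c y → fbI 𝔸 𝔹 m (Bl 𝔸 𝔹) (co 𝔹 σ m c).1.1 y) →
    ∀ L : List (Σ n : ℕ, Str (sigC 𝔹 σ m) (Fin n)),
    (∀ (W : Type) [Finite W] (M : Str (sigC 𝔹 σ m) W),
      Avoids L M ↔ ∃ f : W → V, IsHom M (NC 𝔹 σ m (Bl 𝔸 𝔹)) f) →
    ∀ (n : ℕ) (𝕏 : Str (sigF (SS 𝔹) σ m) (Fin n)),
      (∃ f, IsHom 𝕏 (fbI 𝔸 𝔹 m (Bl 𝔸 𝔹)) f) ↔
        ∃ M : Str (sigC 𝔹 σ m) (Fin n), Avoids L M ∧ Cols (alI 𝔸 𝔹 m (Bl 𝔸 𝔹)) M 𝕏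

/-- from complete types to sets of pieces -/
def T_EPT : Prop :=
  ∀ (V : Type) (σ ρ : Sig) (𝔸 : Str σ V) (𝔹 : Str ρ V), HB 𝔹 → EmbC 𝔹 → ∀ (m N : ℕ)
    (hm : m ≤ N) (F : Set (Str (sigC 𝔹 σ m) (Fin N))),
    (∀ (W : Type) [Finite W] [Nonempty W] (M : Str (sigC 𝔹 σ m) W),
      Val F M ↔ ∃ f : W → V, IsHom M (NC 𝔹 σ m (Bl 𝔸 𝔹)) f) →
    ∃ E : Dm ρ m → DmG (sigC 𝔹 σ m) N, ∀ (s : SyL (SS 𝔹) σ m)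
      (q : Ps m ((sigF (SS 𝔹) σ m).ar s.1) → Dm ρ m), 1 ≤ (sigF (SS 𝔹) σ m).ar s.1 →
      FmI 𝔸 𝔹 m s q →
      ∃ Q : Ps N (arP (sigF (SS 𝔹) σ m) N (some s.1)) → DmG (sigC 𝔹 σ m) N,
        FmX F (alI 𝔸 𝔹 m (Bl 𝔸 𝔹)) (some s.1) s.2 Q ∧
        ∀ (j : Fin m) (α : Fin (j + 1) → Fin ((sigF (SS 𝔹) σ m).ar s.1)),
          StrictMono (fun i => s.2 (α i)) →
          Q ⟨⟨j, lt_of_lt_of_le j.2 hm⟩, α⟩ = E (q ⟨j, α⟩)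

/-- from sets of pieces to complete types -/
def T_RPT : Prop :=
  ∀ (V : Type) (σ ρ : Sig) (𝔸 : Str σ V) (𝔹 : Str ρ V), HB 𝔹 → ∀ (m N : ℕ), 1 ≤ m → ∀
    (hm : m ≤ N) (hN : ∀ c, (sigC 𝔹 σ m).ar c ≤ N) (F : Set (Str (sigC 𝔹 σ m) (Fin N))),
    (∀ (c : Fin (sigC 𝔹 σ m).m) (x y : Fin ((sigC 𝔹 σ m).ar c) → V),
      fbI 𝔸 𝔹 m (Bl 𝔸 𝔹) (co 𝔹 σ m c).1.1 x → NC 𝔹 σ m (Bl 𝔸 𝔹) c x →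
      NC 𝔹 σ m (Bl 𝔸 𝔹) c y → fbI 𝔸 𝔹 m (Bl 𝔸 𝔹) (co 𝔹 σ m c).1.1 y) →
    (∀ (W : Type) [Finite W] [Nonempty W] (M : Str (sigC 𝔹 σ m) W),
      Val F M ↔ ∃ f : W → V, IsHom M (NC 𝔹 σ m (Bl 𝔸 𝔹)) f) →
    ∃ R : DmG (sigC 𝔹 σ m) N → Dm ρ m, ∀ (s : SyL (SS 𝔹) σ m)
      (Q : Ps N (arP (sigF (SS 𝔹) σ m) N (some s.1)) → DmG (sigC 𝔹 σ m) N), Injective s.2 →
      FmX F (alI 𝔸 𝔹 m (Bl 𝔸 𝔹)) (some s.1) s.2 Q →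
      ∃ q : Ps m ((sigF (SS 𝔹) σ m).ar s.1) → Dm ρ m, FmI 𝔸 𝔹 m s q ∧
        ∀ (j : Fin m) (α : Fin (j + 1) → Fin ((sigF (SS 𝔹) σ m).ar s.1)),
          StrictMono (fun i => s.2 (α i)) →
          q ⟨j, α⟩ = R (Q ⟨⟨j, lt_of_lt_of_le j.2 hm⟩, α⟩)

end Pool.Agent.H44.FB
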